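import Mathlib

/-!
Negative circle vectors of finite graphs (loops and multiple edges allowed):
basic definitions.  A graph is a map `ends : E → Sym2 V`.
-/

namespace Pool.Agent.NegCirc

variable {V E : Type*}

/-- How often `v` is an end of an edge with ends `z` (a loop at `v` counts twice). -/
def mult [DecidableEq V] (v : V) (z : Sym2 V) : ℕ :=
  if z = s(v, v) then 2 else if v ∈ z then 1 else 0

/-- The degree of the vertex `v` in the set `S` of edges. -/
def degIn [DecidableEq V] (ends : E → Sym2 V) (S : Finset E) (v : V) : ℕ :=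
  ∑ e ∈ S, mult v (ends e)

/-- `S` is the edge set of a circle: nonempty, every vertex has degree 0 or 2 in `S`, and
`S` is connected (it is not the union of two nonempty parts without a common vertex). -/
def IsCircle [DecidableEq V] [DecidableEq E] (ends : E → Sym2 V) (S : Finset E) : Prop :=
  S.Nonempty ∧ (∀ v, degIn ends S v = 0 ∨ degIn ends S v = 2) ∧
    ∀ A ⊆ S, A.Nonempty → A ≠ S → ∃ e ∈ A, ∃ f ∈ S \ A, ∃ v, v ∈ ends e ∧ v ∈ ends f

/-- The number of negative circles of length `k` for the signature `σ`. -/
noncomputable def negCount [DecidableEq V] [DecidableEq E] (ends : E → Sym2 V)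
    (σ : E → ℤˣ) (k : ℕ) : ℕ :=
  Nat.card {S : Finset E // IsCircle ends S ∧ S.card = k ∧ ∏ e ∈ S, σ e = -1}

/-- The negative circle vector `(c₁⁻, …, cₙ⁻)` of the signature `σ`, `n` the number of
vertices (the coordinate `i : Fin n` is `c⁻` for the length `i + 1`). -/
noncomputable def negVec [DecidableEq V] [DecidableEq E] [Fintype V] (ends : E → Sym2 V)
    (σ : E → ℤˣ) : Fin (Fintype.card V) → ℝ :=
  fun i => (negCount ends σ (i + 1) : ℝ)

/-- `x` lies in the convex cone generated by the negative circle vectors of all signatures: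
it is a nonnegative combination of them. -/
def InCone [DecidableEq V] [DecidableEq E] [Fintype V] [Fintype E] (ends : E → Sym2 V)
    (x : Fin (Fintype.card V) → ℝ) : Prop :=
  ∃ l : (E → ℤˣ) → ℝ, (∀ σ, 0 ≤ l σ) ∧ x = ∑ σ, l σ • negVec ends σ

end Pool.Agent.NegCirc
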