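import Mathlib
import Pool.Agent.NegCirc.Defs

namespace Pool.Agent.NegCirc

variable {V E : Type*} [DecidableEq V] [DecidableEq E] [Fintype V] [Fintype E]

lemma sum_mult (z : Sym2 V) : ∑ v, mult v z = 2 := by
  induction z using Sym2.ind with
  | h a b =>
    by_cases hab : a = b
    · subst hab
      rw [Finset.sum_eq_single a]
      · simp [mult]
      · intro v _ hv
        have h1 : ¬ (s(a, a) = s(v, v)) := by
          intro h; rw [Sym2.eq_iff] at h; rcases h with h | h <;> exact hv h.1.symm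
        simp only [mult, h1, if_false]
        simp [hv]
      · simp
    · have h1 : ∀ v, mult v s(a, b) = (if v = a then 1 else 0) + (if v = b then 1 else 0) := by
        intro v
        have h2 : ¬ (s(a, b) = s(v, v)) := by
          intro h; rw [Sym2.eq_iff] at h
          rcases h with h | h
          · exact hab (h.1.trans h.2.symm)
          · exact hab (h.1.trans h.2.symm)
        simp only [mult, h2, if_false, Sym2.mem_iff]
        by_cases hva : v = a
        · subst hva; simp [hab]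
        · by_cases hvb : v = b
          · subst hvb; simp [hva]
          · simp [hva, hvb]
      simp only [h1, Finset.sum_add_distrib]
      simp

omit [Fintype E] in
lemma circle_card_le {ends : E → Sym2 V} {S : Finset E} (h : IsCircle ends S) :
    S.card ≤ Fintype.card V := by
  have h1 : ∑ v, degIn ends S v = 2 * S.card := by
    unfold degIn
    rw [Finset.sum_comm]
    simp [sum_mult, mul_comm]
  have h2 : ∑ v, degIn ends S v ≤ ∑ _v : V, 2 := by
    apply Finset.sum_le_sum
    intro v _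
    rcases h.2.1 v with h | h <;> omega
  simp at h2
  omega

/-- Orthogonality of the characters of the group of signatures. -/
lemma sum_char (S T : Finset E) :
    ∑ σ : E → ℤˣ, (((∏ e ∈ S, σ e : ℤˣ) : ℤ) : ℝ) * (((∏ e ∈ T, σ e : ℤˣ) : ℤ) : ℝ)
      = if S = T then (2 : ℝ) ^ Fintype.card E else 0 := by
  have h1 : ∀ σ : E → ℤˣ, (((∏ e ∈ S, σ e : ℤˣ) : ℤ) : ℝ) * (((∏ e ∈ T, σ e : ℤˣ) : ℤ) : ℝ)
      = ∏ e : E, ((if e ∈ S then (((σ e : ℤˣ) : ℤ) : ℝ) else 1) *
          (if e ∈ T then (((σ e : ℤˣ) : ℤ) : ℝ) else 1)) := by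
    intro σ
    rw [Finset.prod_mul_distrib]
    congr 1
    · rw [Finset.prod_ite_mem, Finset.univ_inter]; simp
    · rw [Finset.prod_ite_mem, Finset.univ_inter]; simp
  simp only [h1]
  rw [← Fintype.prod_sum (fun (e : E) (u : ℤˣ) => ((if e ∈ S then ((u : ℤ) : ℝ) else 1) *
          (if e ∈ T then ((u : ℤ) : ℝ) else 1)))]
  have h2 : ∀ e : E, (∑ u : ℤˣ, ((if e ∈ S then ((u : ℤ) : ℝ) else 1) *
          (if e ∈ T then ((u : ℤ) : ℝ) else 1))) = if (e ∈ S ↔ e ∈ T) then 2 else 0 := by
    intro e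
    have hu : (Finset.univ : Finset ℤˣ) = {1, -1} := by decide
    rw [hu, Finset.sum_pair (by decide)]
    by_cases hS : e ∈ S <;> by_cases hT : e ∈ T <;> simp [hS, hT] <;> norm_num
  simp only [h2]
  by_cases hST : S = T
  · subst hST; simp
  · rw [if_neg hST]
    have : ∃ e, ¬ (e ∈ S ↔ e ∈ T) := by
      by_contra hcon
      push Not at hcon
      exact hST (Finset.ext hcon)
    obtain ⟨e, he⟩ := this
    exact Finset.prod_eq_zero (Finset.mem_univ e) (by simp [he])

open Classical in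
/-- The circles of length `k`. -/
noncomputable def circ (ends : E → Sym2 V) (k : ℕ) : Finset (Finset E) :=
  Finset.univ.filter (fun S => IsCircle ends S ∧ S.card = k)

lemma negCount_eq (ends : E → Sym2 V) (σ : E → ℤˣ) (k : ℕ) :
    (negCount ends σ k : ℝ) =
      ∑ S ∈ circ ends k, (1 - (((∏ e ∈ S, σ e : ℤˣ) : ℤ) : ℝ)) / 2 := by
  classical
  have h1 : negCount ends σ k = ((circ ends k).filter (fun S => ∏ e ∈ S, σ e = -1)).card := by
    unfold negCount circ
    rw [Nat.card_eq_fintype_card, Fintype.card_subtype, Finset.filter_filter]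
    congr 1
    ext S
    simp [and_assoc]
  rw [h1, Finset.card_filter, Nat.cast_sum]
  apply Finset.sum_congr rfl
  intro S _
  rcases Int.units_eq_one_or (∏ e ∈ S, σ e) with h | h
  · rw [h, if_neg (by decide)]; norm_num
  · rw [h, if_pos rfl]; norm_num

/-- The multiple of the unit vector of the length of a circle `T` as a combination of
negative circle vectors. -/
lemma sum_char_negVec (ends : E → Sym2 V) (T : Finset E) (hT : IsCircle ends T)
    (i : Fin (Fintype.card V)) :
    ∑ σ : E → ℤˣ, (((∏ e ∈ T, σ e : ℤˣ) : ℤ) : ℝ) * negVec ends σ i =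
      if T.card = i + 1 then - (2 : ℝ) ^ Fintype.card E / 2 else 0 := by
  classical
  unfold negVec
  simp only [negCount_eq, Finset.mul_sum]
  rw [Finset.sum_comm]
  have h0 : ∑ σ : E → ℤˣ, (((∏ e ∈ T, σ e : ℤˣ) : ℤ) : ℝ) = 0 := by
    have := sum_char T (∅ : Finset E)
    simp only [Finset.prod_empty, Units.val_one, Int.cast_one, mul_one] at this
    rw [this, if_neg hT.1.ne_empty]
  have h1 : ∀ S ∈ circ ends ((i : ℕ) + 1),
      ∑ σ : E → ℤˣ, (((∏ e ∈ T, σ e : ℤˣ) : ℤ) : ℝ) *
        ((1 - (((∏ e ∈ S, σ e : ℤˣ) : ℤ) : ℝ)) / 2) =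
      if T = S then - (2 : ℝ) ^ Fintype.card E / 2 else 0 := by
    intro S _
    have h2 : ∀ σ : E → ℤˣ, (((∏ e ∈ T, σ e : ℤˣ) : ℤ) : ℝ) *
        ((1 - (((∏ e ∈ S, σ e : ℤˣ) : ℤ) : ℝ)) / 2) =
        (((∏ e ∈ T, σ e : ℤˣ) : ℤ) : ℝ) / 2 -
        ((((∏ e ∈ T, σ e : ℤˣ) : ℤ) : ℝ) * (((∏ e ∈ S, σ e : ℤˣ) : ℤ) : ℝ)) / 2 := by
      intro σ; ring
    simp only [h2, Finset.sum_sub_distrib, ← Finset.sum_div, h0, sum_char]
    split_ifs <;> ring
  rw [Finset.sum_congr rfl h1, Finset.sum_ite_eq]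
  have h3 : T ∈ circ ends ((i : ℕ) + 1) ↔ T.card = i + 1 := by
    unfold circ; simp [hT]
  simp only [h3]

end Pool.Agent.NegCirc
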