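import Mathlib
import Pool.Agent.NegCirc.Defs

/-!
The complete bipartite graph `K_{3,n}`, two of its signatures, and the balanced quadruple.
-/

namespace Pool.Agent.NegCirc

/-- The complete bipartite graph `K_{3,n}`: the edge `(i, j)` joins the vertex `i` of the
first side (3 vertices) with the vertex `j` of the second side (`n` vertices). -/
def k3 (n : ℕ) : Fin 3 × Fin n → Sym2 (Fin 3 ⊕ Fin n) := fun e => s(Sum.inl e.1, Sum.inr e.2)

/-- The second elementary symmetric polynomial of four natural numbers. -/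
def e2 (a : Fin 4 → ℕ) : ℕ :=
  a 0 * a 1 + a 0 * a 2 + a 0 * a 3 + a 1 * a 2 + a 1 * a 3 + a 2 * a 3

/-- The third elementary symmetric polynomial of four natural numbers. -/
def e3 (a : Fin 4 → ℕ) : ℕ :=
  a 0 * a 1 * a 2 + a 0 * a 1 * a 3 + a 0 * a 2 * a 3 + a 1 * a 2 * a 3

/-- The balanced quadruple with sum `n`: `⌊n/4⌋, ⌊(n+1)/4⌋, ⌊(n+2)/4⌋, ⌊(n+3)/4⌋`. -/
def bal (n : ℕ) : Fin 4 → ℕ := fun i => (n + i) / 4

/-- The signature of `K_{3,n}` with exactly one negative edge, `(0, 0)`. -/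
def oneNeg (n : ℕ) : Fin 3 × Fin n → ℤˣ :=
  fun e => if e.1 = 0 ∧ (e.2 : ℕ) = 0 then -1 else 1

/-- The balanced signature of `K_{3,n}`: the edge `(0, j)` is negative for odd `j`, the edge
`(1, j)` is negative if `j` is 2 or 3 modulo 4, all other edges are positive. -/
def balSig (n : ℕ) : Fin 3 × Fin n → ℤˣ :=
  fun e => if (e.1 = 0 ∧ (e.2 : ℕ) % 2 = 1) ∨ (e.1 = 1 ∧ 2 ≤ (e.2 : ℕ) % 4) then -1 else 1

end Pool.Agent.NegCirc
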