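import Mathlib
import Pool.Agent.NegCirc.Defs
import Pool.Agent.NegCirc.Basic
import Pool.Agent.NegCirc.K3nDefs

/-!
Circles of the complete bipartite graph `K_{3,n}`.
-/

namespace Pool.Agent.NegCirc

lemma deg_inl {n : ℕ} (S : Finset (Fin 3 × Fin n)) (i : Fin 3) :
    degIn (k3 n) S (Sum.inl i) = (S.filter (fun e => e.1 = i)).card := by
  unfold degIn
  rw [Finset.card_filter]
  apply Finset.sum_congr rfl
  rintro ⟨a, b⟩ _
  unfold mult k3
  simp only [Sym2.eq_iff, Sym2.mem_iff]
  by_cases h : a = i
  · subst h; simp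
  · have h' : ¬ (i = a) := fun h2 => h h2.symm
    simp [h, h']

lemma deg_inr {n : ℕ} (S : Finset (Fin 3 × Fin n)) (j : Fin n) :
    degIn (k3 n) S (Sum.inr j) = (S.filter (fun e => e.2 = j)).card := by
  unfold degIn
  rw [Finset.card_filter]
  apply Finset.sum_congr rfl
  rintro ⟨a, b⟩ _
  unfold mult k3
  simp only [Sym2.eq_iff, Sym2.mem_iff]
  by_cases h : b = j
  · subst h; simp
  · have h' : ¬ (j = b) := fun h2 => h h2.symm
    simp [h, h']

/-- The product of the four signs of a 4-circle, or in general the edges of a grid. -/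
lemma grid_isCircle {n : ℕ} {R : Finset (Fin 3)} {C : Finset (Fin n)} (hR : R.card = 2)
    (hC : C.card = 2) : IsCircle (k3 n) (R ×ˢ C) := by
  have hRn : R.Nonempty := Finset.card_pos.1 (by omega)
  have hCn : C.Nonempty := Finset.card_pos.1 (by omega)
  refine ⟨hRn.product hCn, ?_, ?_⟩
  · rintro (i | j)
    · rw [deg_inl]
      by_cases hi : i ∈ R
      · right
        have : (R ×ˢ C).filter (fun e => e.1 = i) = {i} ×ˢ C := by
          ext ⟨a, b⟩
          simp only [Finset.mem_filter, Finset.mem_product, Finset.mem_singleton]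
          constructor
          · rintro ⟨⟨_, h2⟩, h3⟩; exact ⟨h3, h2⟩
          · rintro ⟨h1, h2⟩; subst h1; exact ⟨⟨hi, h2⟩, rfl⟩
        rw [this, Finset.card_product, hC, Finset.card_singleton]
      · left
        rw [Finset.card_eq_zero, Finset.filter_eq_empty_iff]
        rintro ⟨a, b⟩ hab h
        simp only at h
        subst h
        exact hi (Finset.mem_product.1 hab).1
    · rw [deg_inr]
      by_cases hj : j ∈ C
      · right
        have : (R ×ˢ C).filter (fun e => e.2 = j) = R ×ˢ {j} := by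
          ext ⟨a, b⟩
          simp only [Finset.mem_filter, Finset.mem_product, Finset.mem_singleton]
          constructor
          · rintro ⟨⟨h1, _⟩, h3⟩; exact ⟨h1, h3⟩
          · rintro ⟨h1, h2⟩; subst h2; exact ⟨⟨h1, hj⟩, rfl⟩
        rw [this, Finset.card_product, hR, Finset.card_singleton]
      · left
        rw [Finset.card_eq_zero, Finset.filter_eq_empty_iff]
        rintro ⟨a, b⟩ hab h
        simp only at h
        subst h
        exact hj (Finset.mem_product.1 hab).2
  · intro A hA hAn hAne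
    by_contra hcon
    push Not at hcon
    apply hAne
    apply Finset.Subset.antisymm hA
    obtain ⟨⟨i, j⟩, hij⟩ := hAn
    have hij' := Finset.mem_product.1 (hA hij)
    -- closed under row and column moves
    have hcol : ∀ a ∈ R, (a, j) ∈ A := by
      intro a ha
      by_contra h
      have h1 : ((a, j) : Fin 3 × Fin n) ∈ (R ×ˢ C) \ A :=
        Finset.mem_sdiff.2 ⟨Finset.mem_product.2 ⟨ha, hij'.2⟩, h⟩
      exact hcon _ hij _ h1 (Sum.inr j) (by simp [k3]) (by simp [k3])
    rintro ⟨a, b⟩ hab
    have hab' := Finset.mem_product.1 hab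
    by_contra h
    exact hcon _ (hcol a hab'.1) _ (Finset.mem_sdiff.2 ⟨hab, h⟩) (Sum.inl a)
      (by simp [k3]) (by simp [k3])

/-- The six index pairs of a hexagon. -/
def offD : Finset (Fin 3 × Fin 3) := Finset.univ.filter (fun p => p.1 ≠ p.2)

/-- The hexagon given by three different columns `f 0, f 1, f 2`: all edges `(i, f k)`
with `i ≠ k`. -/
def hexa {n : ℕ} (f : Fin 3 ↪ Fin n) : Finset (Fin 3 × Fin n) :=
  offD.map ⟨fun p => (p.1, f p.2), by
    rintro ⟨a, b⟩ ⟨c, d⟩ h
    simp only [Prod.mk.injEq] at h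
    exact Prod.ext h.1 (f.injective h.2)⟩

lemma mem_hexa {n : ℕ} (f : Fin 3 ↪ Fin n) (e : Fin 3 × Fin n) :
    e ∈ hexa f ↔ ∃ k, k ≠ e.1 ∧ f k = e.2 := by
  unfold hexa offD
  simp only [Finset.mem_map, Finset.mem_filter, Finset.mem_univ, true_and,
    Function.Embedding.coeFn_mk]
  constructor
  · rintro ⟨⟨a, b⟩, hab, rfl⟩
    exact ⟨b, fun h => hab h.symm, rfl⟩
  · rintro ⟨k, hk, hk2⟩
    refine ⟨(e.1, k), fun h => hk h.symm, ?_⟩
    exact Prod.ext rfl hk2

lemma hexa_card {n : ℕ} (f : Fin 3 ↪ Fin n) : (hexa f).card = 6 := by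
  unfold hexa
  rw [Finset.card_map]
  decide

lemma hexa_inj {n : ℕ} : Function.Injective (fun f : Fin 3 ↪ Fin n => hexa f) := by
  intro f g h
  simp only at h
  have key : ∀ (f g : Fin 3 ↪ Fin n), hexa f = hexa g → ∀ i, f i = g i := by
    intro f g h i
    -- the column `f i` occurs in `hexa f`, so it is `g k` for some `k`
    have h0 : ∃ a : Fin 3, a ≠ i := by
      fin_cases i <;> decide
    obtain ⟨a, ha⟩ := h0
    have h1 : ((a, f i) : Fin 3 × Fin n) ∈ hexa g := by
      rw [← h, mem_hexa]; exact ⟨i, fun h => ha h.symm, rfl⟩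
    obtain ⟨k, _, hk⟩ := (mem_hexa g _).1 h1
    simp only at hk
    by_cases hik : k = i
    · rw [← hk, hik]
    · -- then `(i, g k)` is in `hexa g` but `(i, f i)` is not in `hexa f`
      exfalso
      have h2 : ((i, f i) : Fin 3 × Fin n) ∈ hexa f := by
        rw [h, mem_hexa]; exact ⟨k, hik, hk⟩
      obtain ⟨l, hl, hl2⟩ := (mem_hexa f _).1 h2
      exact hl (f.injective hl2)
  ext i
  rw [key f g h i]

lemma hexa_isCircle {n : ℕ} (f : Fin 3 ↪ Fin n) : IsCircle (k3 n) (hexa f) := by
  refine ⟨Finset.card_pos.1 (by rw [hexa_card]; omega), ?_, ?_⟩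
  · rintro (i | j)
    · right
      rw [deg_inl]
      unfold hexa
      rw [Finset.filter_map, Finset.card_map]
      have : ∀ i : Fin 3, (offD.filter (fun e => e.1 = i)).card = 2 := by decide
      exact this i
    · rw [deg_inr]
      by_cases hj : ∃ k, f k = j
      · right
        obtain ⟨k, rfl⟩ := hj
        unfold hexa
        rw [Finset.filter_map, Finset.card_map]
        have h1 : ∀ k : Fin 3, (offD.filter (fun e => e.2 = k)).card = 2 := by decide
        rw [← h1 k]
        congr 1
        ext e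
        simp
      · left
        rw [Finset.card_eq_zero, Finset.filter_eq_empty_iff]
        intro e he h
        obtain ⟨k, _, hk⟩ := (mem_hexa f e).1 he
        exact hj ⟨k, hk.trans h⟩
  · have hdec : ∀ B : Finset (Fin 3 × Fin 3), B ⊆ offD → B.Nonempty → B ≠ offD →
        ∃ e ∈ B, ∃ g ∈ offD \ B, e.1 = g.1 ∨ e.2 = g.2 := by
      decide
    intro A hA hAn hAne
    set φ : Fin 3 × Fin 3 ↪ Fin 3 × Fin n := ⟨fun p => (p.1, f p.2), by
      rintro ⟨a, b⟩ ⟨c, d⟩ h
      simp only [Prod.mk.injEq] at h
      exact Prod.ext h.1 (f.injective h.2)⟩ with hφ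
    have hhex : hexa f = offD.map φ := rfl
    set B : Finset (Fin 3 × Fin 3) := offD.filter (fun p => φ p ∈ A) with hB
    have hAB : A = B.map φ := by
      ext e
      constructor
      · intro he
        have := hA he
        rw [hhex, Finset.mem_map] at this
        obtain ⟨p, hp, rfl⟩ := this
        exact Finset.mem_map.2 ⟨p, Finset.mem_filter.2 ⟨hp, he⟩, rfl⟩
      · intro he
        obtain ⟨p, hp, rfl⟩ := Finset.mem_map.1 he
        exact (Finset.mem_filter.1 hp).2
    have h1 : B.Nonempty := by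
      rw [hAB] at hAn
      exact Finset.map_nonempty.1 hAn
    have h2 : B ≠ offD := by
      intro h
      apply hAne
      rw [hAB, h, hhex]
    obtain ⟨e, he, g, hg, heg⟩ := hdec B (Finset.filter_subset _ _) h1 h2
    have hg' := Finset.mem_sdiff.1 hg
    refine ⟨φ e, ?_, φ g, ?_, ?_⟩
    · rw [hAB]; exact Finset.mem_map_of_mem _ he
    · rw [Finset.mem_sdiff, hhex, hAB]
      refine ⟨Finset.mem_map_of_mem _ hg'.1, ?_⟩
      intro h
      obtain ⟨p, hp, hpe⟩ := Finset.mem_map.1 h
      have := φ.injective hpe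
      subst this
      exact hg'.2 hp
    · rcases heg with h | h
      · exact ⟨Sum.inl e.1, by simp [k3, hφ], by simp [k3, hφ, h]⟩
      · exact ⟨Sum.inr (f e.2), by simp [k3, hφ], by simp [k3, hφ, h]⟩

lemma card_eq_two_mul {n : ℕ} {S : Finset (Fin 3 × Fin n)} (h : IsCircle (k3 n) S) :
    S.card = 2 * (S.image Prod.fst).card ∧ S.card = 2 * (S.image Prod.snd).card := by
  constructor
  · have h1 : S.card = ∑ i ∈ S.image Prod.fst, (S.filter (fun e => e.1 = i)).card :=
      Finset.card_eq_sum_card_image Prod.fst S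
    rw [h1, Finset.sum_congr rfl (g := fun _ => 2)]
    · simp [mul_comm]
    · intro i hi
      have h2 := h.2.1 (Sum.inl i)
      rw [deg_inl] at h2
      rcases h2 with h2 | h2
      · exfalso
        obtain ⟨e, he, rfl⟩ := Finset.mem_image.1 hi
        rw [Finset.card_eq_zero, Finset.filter_eq_empty_iff] at h2
        exact h2 he rfl
      · exact h2
  · have h1 : S.card = ∑ i ∈ S.image Prod.snd, (S.filter (fun e => e.2 = i)).card :=
      Finset.card_eq_sum_card_image Prod.snd S
    rw [h1, Finset.sum_congr rfl (g := fun _ => 2)]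
    · simp [mul_comm]
    · intro i hi
      have h2 := h.2.1 (Sum.inr i)
      rw [deg_inr] at h2
      rcases h2 with h2 | h2
      · exfalso
        obtain ⟨e, he, rfl⟩ := Finset.mem_image.1 hi
        rw [Finset.card_eq_zero, Finset.filter_eq_empty_iff] at h2
        exact h2 he rfl
      · exact h2

lemma sub_product {n : ℕ} (S : Finset (Fin 3 × Fin n)) :
    S ⊆ S.image Prod.fst ×ˢ S.image Prod.snd := by
  intro e he
  exact Finset.mem_product.2 ⟨Finset.mem_image_of_mem _ he, Finset.mem_image_of_mem _ he⟩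

/-- The length of a circle of `K_{3,n}` is 4 or 6. -/
lemma circle_card {n : ℕ} {S : Finset (Fin 3 × Fin n)} (h : IsCircle (k3 n) S) :
    S.card = 4 ∨ S.card = 6 := by
  obtain ⟨h1, h2⟩ := card_eq_two_mul h
  have h3 : (S.image Prod.fst).card ≤ 3 := by
    calc _ ≤ (Finset.univ : Finset (Fin 3)).card := Finset.card_le_card (Finset.subset_univ _)
      _ = 3 := by simp
  have h4 := Finset.card_le_card (sub_product S)
  rw [Finset.card_product] at h4
  have h5 := h.1.card_pos
  have h6 : (S.image Prod.snd).card = (S.image Prod.fst).card := by omega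
  rw [h6] at h4
  interval_cases hr : (S.image Prod.fst).card <;> omega

lemma circle_four {n : ℕ} {S : Finset (Fin 3 × Fin n)} (h : IsCircle (k3 n) S)
    (h4 : S.card = 4) : ∃ (R : Finset (Fin 3)) (C : Finset (Fin n)),
      R.card = 2 ∧ C.card = 2 ∧ S = R ×ˢ C := by
  obtain ⟨h1, h2⟩ := card_eq_two_mul h
  refine ⟨S.image Prod.fst, S.image Prod.snd, by omega, by omega, ?_⟩
  apply Finset.eq_of_subset_of_card_le (sub_product S)
  rw [Finset.card_product]
  have h5 : (S.image Prod.fst).card = 2 := by omega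
  have h6 : (S.image Prod.snd).card = 2 := by omega
  rw [h5, h6, h4]

lemma circle_six {n : ℕ} {S : Finset (Fin 3 × Fin n)} (h : IsCircle (k3 n) S)
    (h6 : S.card = 6) : ∃ f : Fin 3 ↪ Fin n, S = hexa f := by
  obtain ⟨h1, h2⟩ := card_eq_two_mul h
  have hR : (S.image Prod.fst).card = 3 := by omega
  have hC : (S.image Prod.snd).card = 3 := by omega
  have hRu : S.image Prod.fst = Finset.univ := by
    apply Finset.eq_univ_of_card
    rw [hR]; simp
  set C := S.image Prod.snd with hCdef
  -- every row misses exactly one column of `C`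
  have hrow : ∀ i : Fin 3, ∃ j ∈ C, (i, j) ∉ S ∧ ∀ j' ∈ C, j' ≠ j → (i, j') ∈ S := by
    intro i
    have hd : (S.filter (fun e => e.1 = i)).card = 2 := by
      have h3 := h.2.1 (Sum.inl i)
      rw [deg_inl] at h3
      rcases h3 with h3 | h3
      · exfalso
        have hi : i ∈ S.image Prod.fst := by rw [hRu]; exact Finset.mem_univ _
        obtain ⟨e, he, rfl⟩ := Finset.mem_image.1 hi
        rw [Finset.card_eq_zero, Finset.filter_eq_empty_iff] at h3
        exact h3 he rfl
      · exact h3
    set D := C.filter (fun j => (i, j) ∈ S) with hD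
    have hDc : D.card = 2 := by
      rw [← hd]
      apply Finset.card_bij (fun j _ => (i, j))
      · intro j hj
        exact Finset.mem_filter.2 ⟨(Finset.mem_filter.1 hj).2, rfl⟩
      · intro a _ b _ hab
        exact (Prod.mk.inj hab).2
      · rintro ⟨a, b⟩ hab
        obtain ⟨hab1, hab2⟩ := Finset.mem_filter.1 hab
        simp only at hab2
        subst hab2
        exact ⟨b, Finset.mem_filter.2 ⟨Finset.mem_image_of_mem Prod.snd hab1, hab1⟩, rfl⟩
    have hsd : (C \ D).card = 1 := by
      rw [Finset.card_sdiff_of_subset (Finset.filter_subset _ _), hC, hDc]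
    obtain ⟨j, hj⟩ := Finset.card_eq_one.1 hsd
    have hjm : j ∈ C \ D := by rw [hj]; exact Finset.mem_singleton_self _
    obtain ⟨hjC, hjD⟩ := Finset.mem_sdiff.1 hjm
    refine ⟨j, hjC, fun hc => hjD (Finset.mem_filter.2 ⟨hjC, hc⟩), ?_⟩
    intro j' hj' hne
    by_contra hc
    have : j' ∈ C \ D := Finset.mem_sdiff.2 ⟨hj', fun h => hc (Finset.mem_filter.1 h).2⟩
    rw [hj, Finset.mem_singleton] at this
    exact hne this
  choose f hfC hfS hfall using hrow
  have hcol : ∀ j ∈ C, (S.filter (fun e => e.2 = j)).card = 2 := by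
    intro j hj
    have h3 := h.2.1 (Sum.inr j)
    rw [deg_inr] at h3
    rcases h3 with h3 | h3
    · exfalso
      obtain ⟨e, he, rfl⟩ := Finset.mem_image.1 hj
      rw [Finset.card_eq_zero, Finset.filter_eq_empty_iff] at h3
      exact h3 he rfl
    · exact h3
  have hinj : Function.Injective f := by
    intro a b hab
    by_contra hne
    -- the column `f a` misses the rows `a` and `b`, so it has degree at most 1
    have h3 := hcol (f a) (hfC a)
    have h4 : (S.filter (fun e => e.2 = f a)) ⊆
        (Finset.univ.filter (fun i : Fin 3 => i ≠ a ∧ i ≠ b)).map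
          ⟨fun i => (i, f a), fun x y hxy => (Prod.mk.inj hxy).1⟩ := by
      rintro ⟨i, j⟩ hij
      obtain ⟨hij1, hij2⟩ := Finset.mem_filter.1 hij
      simp only at hij2
      subst hij2
      refine Finset.mem_map.2 ⟨i, Finset.mem_filter.2 ⟨Finset.mem_univ _, ?_, ?_⟩, rfl⟩
      · rintro rfl; exact hfS _ hij1
      · rintro rfl; rw [hab] at hij1; exact hfS _ hij1
    have h5 := Finset.card_le_card h4
    rw [Finset.card_map, h3] at h5
    have h6 : ∀ a b : Fin 3, a ≠ b →
        (Finset.univ.filter (fun i : Fin 3 => i ≠ a ∧ i ≠ b)).card = 1 := by decide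
    rw [h6 a b hne] at h5
    omega
  refine ⟨⟨f, hinj⟩, ?_⟩
  have himg : Finset.univ.image f = C := by
    apply Finset.eq_of_subset_of_card_le
    · intro j hj
      obtain ⟨i, _, rfl⟩ := Finset.mem_image.1 hj
      exact hfC i
    · rw [hC, Finset.card_image_of_injective _ hinj]; simp
  ext ⟨i, j⟩
  rw [mem_hexa]
  simp only [Function.Embedding.coeFn_mk]
  constructor
  · intro hij
    have hj : j ∈ C := Finset.mem_image_of_mem Prod.snd hij
    rw [← himg] at hj
    obtain ⟨k, _, rfl⟩ := Finset.mem_image.1 hj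
    refine ⟨k, ?_, rfl⟩
    rintro rfl
    exact hfS _ hij
  · rintro ⟨k, hk, rfl⟩
    exact hfall i _ (hfC k) (fun h => hk (hinj h))

end Pool.Agent.NegCirc
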