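import Mathlib
import Pool.Agent.NegCirc.Defs
import Pool.Agent.NegCirc.Basic
import Pool.Agent.NegCirc.K3nDefs
import Pool.Agent.NegCirc.K3nCirc

/-!
The negative circle counts of `K_{3,n}` in terms of the three sums `P 0, P 1, P 2`.
-/

namespace Pool.Agent.NegCirc

/-- The sign of the column `j` without its row `k`. -/
def pc {n : ℕ} (σ : Fin 3 × Fin n → ℤˣ) (k : Fin 3) (j : Fin n) : ℤˣ :=
  ∏ i ∈ Finset.univ.filter (fun i : Fin 3 => i ≠ k), σ (i, j)

/-- The sum of the signs `pc σ k j` over the columns `j`. -/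
def PS {n : ℕ} (σ : Fin 3 × Fin n → ℤˣ) (k : Fin 3) : ℝ := ∑ j, ((pc σ k j : ℤ) : ℝ)

lemma sum_pairs {α : Type*} [DecidableEq α] (s : Finset α) (p : α → ℝ) :
    2 * ∑ C ∈ s.powersetCard 2, ∏ j ∈ C, p j = (∑ j ∈ s, p j) ^ 2 - ∑ j ∈ s, p j ^ 2 := by
  induction s using Finset.induction_on with
  | empty => rw [Finset.powersetCard_eq_empty.2 (by simp)]; simp
  | insert a s ha ih =>
    rw [Finset.powersetCard_succ_insert ha, Finset.sum_union, Finset.sum_image,
      Finset.sum_insert ha, Finset.sum_insert ha]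
    · have h1 : ∑ C ∈ s.powersetCard 1, ∏ j ∈ insert a C, p j = p a * ∑ j ∈ s, p j := by
        rw [Finset.powersetCard_one, Finset.sum_map, Finset.mul_sum]
        apply Finset.sum_congr rfl
        intro j hj
        have : a ≠ j := fun h => ha (h ▸ hj)
        simp [Finset.prod_pair this]
      rw [mul_add, ih, h1]
      ring
    · intro x hx y hy hxy
      have hx' : a ∉ x := fun h => ha ((Finset.mem_powersetCard.1 hx).1 h)
      have hy' : a ∉ y := fun h => ha ((Finset.mem_powersetCard.1 hy).1 h)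
      have := congrArg (fun z => Finset.erase z a) hxy
      simpa [Finset.erase_insert hx', Finset.erase_insert hy'] using this
    · rw [Finset.disjoint_left]
      intro x hx hx2
      obtain ⟨y, _, rfl⟩ := Finset.mem_image.1 hx2
      exact ha ((Finset.mem_powersetCard.1 hx).1 (Finset.mem_insert_self _ _))

lemma sum_distinct {n : ℕ} (p q r : Fin n → ℝ) :
    ∑ a, ∑ b, ∑ c, (if a ≠ b ∧ a ≠ c ∧ b ≠ c then p a * q b * r c else 0) =
      (∑ a, p a) * (∑ b, q b) * (∑ c, r c) - (∑ a, p a * q a) * (∑ c, r c)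
      - (∑ a, p a * r a) * (∑ b, q b) - (∑ a, p a) * (∑ b, q b * r b)
      + 2 * ∑ a, p a * q a * r a := by
  have h : ∀ a b c : Fin n, (if a ≠ b ∧ a ≠ c ∧ b ≠ c then p a * q b * r c else 0) =
      p a * q b * r c - (if b = a then p a * q a * r c else 0)
      - (if c = a then p a * q b * r a else 0) - (if c = b then p a * q b * r b else 0)
      + 2 * (if b = a then (if c = a then p a * q a * r a else 0) else 0) := by
    intro a b c
    by_cases hab : a = b
    · subst hab
      by_cases hac : a = c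
      · subst hac; simp; ring
      · have : ¬ c = a := fun h => hac h.symm
        simp [this]
    · have hba : ¬ b = a := fun h => hab h.symm
      by_cases hac : a = c
      · subst hac
        have : ¬ (a = b) := hab
        simp [hba, this]
      · have hca : ¬ c = a := fun h => hac h.symm
        by_cases hbc : b = c
        · subst hbc; simp [hba]
        · have hcb : ¬ c = b := fun h => hbc h.symm
          simp [hba, hca, hcb, hab, hac, hbc]
  simp only [h, Finset.sum_add_distrib, Finset.sum_sub_distrib]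
  have e1 : ∑ a, ∑ b, ∑ c, p a * q b * r c = (∑ a, p a) * (∑ b, q b) * (∑ c, r c) := by
    rw [mul_assoc, Finset.sum_mul]
    apply Finset.sum_congr rfl; intro a _
    rw [Finset.sum_mul_sum, Finset.mul_sum]
    apply Finset.sum_congr rfl; intro b _
    rw [Finset.mul_sum]
    apply Finset.sum_congr rfl; intro c _
    ring
  have e2 : ∑ a : Fin n, ∑ b : Fin n, ∑ c : Fin n, (if b = a then p a * q a * r c else 0) =
      (∑ a, p a * q a) * (∑ c, r c) := by
    rw [Finset.sum_mul]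
    apply Finset.sum_congr rfl; intro a _
    rw [Finset.sum_comm, Finset.mul_sum]
    apply Finset.sum_congr rfl; intro c _
    simp
  have e3 : ∑ a : Fin n, ∑ b : Fin n, ∑ c : Fin n, (if c = a then p a * q b * r a else 0) =
      (∑ a, p a * r a) * (∑ b, q b) := by
    rw [Finset.sum_mul]
    apply Finset.sum_congr rfl; intro a _
    rw [Finset.mul_sum]
    apply Finset.sum_congr rfl; intro b _
    simp; ring
  have e4 : ∑ a : Fin n, ∑ b : Fin n, ∑ c : Fin n, (if c = b then p a * q b * r b else 0) =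
      (∑ a, p a) * (∑ b, q b * r b) := by
    rw [Finset.sum_mul]
    apply Finset.sum_congr rfl; intro a _
    rw [Finset.mul_sum]
    apply Finset.sum_congr rfl; intro b _
    simp; ring
  have e5 : ∑ a : Fin n, ∑ b : Fin n, ∑ c : Fin n,
      2 * (if b = a then (if c = a then p a * q a * r a else 0) else 0) =
      2 * ∑ a, p a * q a * r a := by
    rw [Finset.mul_sum]
    apply Finset.sum_congr rfl; intro a _
    rw [Finset.sum_comm]
    simp
  rw [e1, e2, e3, e4, e5]

lemma prod_grid {n : ℕ} (σ : Fin 3 × Fin n → ℤˣ) (k : Fin 3) (C : Finset (Fin n)) :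
    ∏ e ∈ (Finset.univ.filter (fun i : Fin 3 => i ≠ k)) ×ˢ C, σ e = ∏ j ∈ C, pc σ k j := by
  rw [Finset.prod_product_right]
  rfl

lemma prod_hexa {n : ℕ} (σ : Fin 3 × Fin n → ℤˣ) (f : Fin 3 ↪ Fin n) :
    ∏ e ∈ hexa f, σ e = ∏ k, pc σ k (f k) := by
  unfold hexa offD pc
  rw [Finset.prod_map, Finset.prod_filter, ← Finset.univ_product_univ,
    Finset.prod_product_right]
  apply Finset.prod_congr rfl
  intro k _
  rw [Finset.prod_filter]
  rfl

lemma pc_sq {n : ℕ} (σ : Fin 3 × Fin n → ℤˣ) (k : Fin 3) (j : Fin n) :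
    ((pc σ k j : ℤ) : ℝ) ^ 2 = 1 := by
  rcases Int.units_eq_one_or (pc σ k j) with h | h <;> rw [h] <;> norm_num

lemma pc_prod {n : ℕ} (σ : Fin 3 × Fin n → ℤˣ) (j : Fin n) :
    pc σ 0 j * pc σ 1 j = pc σ 2 j := by
  unfold pc
  have h0 : (Finset.univ.filter (fun i : Fin 3 => i ≠ 0)) = {1, 2} := by decide
  have h1 : (Finset.univ.filter (fun i : Fin 3 => i ≠ 1)) = {0, 2} := by decide
  have h2 : (Finset.univ.filter (fun i : Fin 3 => i ≠ 2)) = {0, 1} := by decide
  rw [h0, h1, h2, Finset.prod_pair (by decide), Finset.prod_pair (by decide),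
    Finset.prod_pair (by decide)]
  have : σ (2, j) * σ (2, j) = 1 := Int.units_mul_self _
  calc σ (1, j) * σ (2, j) * (σ (0, j) * σ (2, j)) = σ (0, j) * σ (1, j) * (σ (2, j) * σ (2, j)) := by
        simp only [mul_assoc, mul_comm, mul_left_comm]
    _ = σ (0, j) * σ (1, j) := by rw [this, mul_one]

lemma pcr_prod {n : ℕ} (σ : Fin 3 × Fin n → ℤˣ) (j : Fin n) :
    ((pc σ 0 j : ℤ) : ℝ) * ((pc σ 1 j : ℤ) : ℝ) = ((pc σ 2 j : ℤ) : ℝ) := by
  rw [← pc_prod]
  push_cast
  ring

/-- The number of negative 4-circles. -/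
lemma count_four {n : ℕ} (σ : Fin 3 × Fin n → ℤˣ) :
    (negCount (k3 n) σ 4 : ℝ) = ∑ k : Fin 3, ((n : ℝ) ^ 2 - PS σ k ^ 2) / 4 := by
  classical
  rw [negCount_eq]
  have h1 : circ (k3 n) 4 = ((Finset.univ : Finset (Fin 3)) ×ˢ
      ((Finset.univ : Finset (Fin n)).powersetCard 2)).image
        (fun x => (Finset.univ.filter (fun i : Fin 3 => i ≠ x.1)) ×ˢ x.2) := by
    ext S
    unfold circ
    simp only [Finset.mem_filter, Finset.mem_univ, true_and, Finset.mem_image,
      Finset.mem_product, Finset.mem_powersetCard, Finset.subset_univ]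
    constructor
    · rintro ⟨hS, hc⟩
      obtain ⟨R, C, hR, hC, rfl⟩ := circle_four hS hc
      have hall : ∀ R : Finset (Fin 3), R.card = 2 →
          ∃ k : Fin 3, Finset.univ.filter (fun i : Fin 3 => i ≠ k) = R := by decide
      obtain ⟨k, hk⟩ := hall R hR
      exact ⟨(k, C), hC, by rw [hk]⟩
    · rintro ⟨⟨k, C⟩, hC, rfl⟩
      have hall : ∀ k : Fin 3, (Finset.univ.filter (fun i : Fin 3 => i ≠ k)).card = 2 := by
        decide
      refine ⟨grid_isCircle (hall k) hC, ?_⟩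
      rw [Finset.card_product, hall k, hC]
  rw [h1, Finset.sum_image, Finset.sum_product]
  · apply Finset.sum_congr rfl
    intro k _
    simp only [prod_grid]
    have h2 : ∀ C : Finset (Fin n), (((∏ j ∈ C, pc σ k j : ℤˣ) : ℤ) : ℝ) =
        ∏ j ∈ C, ((pc σ k j : ℤ) : ℝ) := by
      intro C; push_cast; rfl
    simp only [h2]
    rw [← Finset.sum_div, Finset.sum_sub_distrib]
    have h3 := sum_pairs (Finset.univ : Finset (Fin n)) (fun j => ((pc σ k j : ℤ) : ℝ))
    simp only [pc_sq] at h3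
    have h4 : (∑ _C ∈ (Finset.univ : Finset (Fin n)).powersetCard 2, (1 : ℝ)) =
        (n : ℝ) * (n - 1) / 2 := by
      rw [Finset.sum_const, Finset.card_powersetCard, Finset.card_univ, Fintype.card_fin,
        nsmul_eq_mul, mul_one, Nat.cast_choose_two]
    rw [h4]
    unfold PS
    simp only [Finset.sum_const, Finset.card_univ, Fintype.card_fin, nsmul_eq_mul,
      mul_one] at h3
    linarith
  · rintro ⟨k, C⟩ h ⟨k', C'⟩ h' heq
    simp only [Finset.coe_product, Set.mem_prod, Finset.mem_coe, Finset.mem_powersetCard,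
      Finset.subset_univ, true_and, Finset.mem_univ] at h h'
    simp only at heq
    have hne : C.Nonempty := Finset.card_pos.1 (by omega)
    have hall : ∀ k : Fin 3, (Finset.univ.filter (fun i : Fin 3 => i ≠ k)).Nonempty := by
      decide
    have e1 : Finset.univ.filter (fun i : Fin 3 => i ≠ k) =
        Finset.univ.filter (fun i : Fin 3 => i ≠ k') := by
      have := congrArg (fun z => z.image Prod.fst) heq
      have hne' : C'.Nonempty := Finset.card_pos.1 (by omega)
      simpa [Finset.product_image_fst, hne, hne'] using this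
    have e2 : C = C' := by
      have := congrArg (fun z => z.image Prod.snd) heq
      simpa [Finset.product_image_snd, hall k, hall k'] using this
    have hinj : ∀ k k' : Fin 3, Finset.univ.filter (fun i : Fin 3 => i ≠ k) =
        Finset.univ.filter (fun i : Fin 3 => i ≠ k') → k = k' := by decide
    exact Prod.ext (hinj k k' e1) e2

/-- Three values as a function on `Fin 3`. -/
def tripleEquiv (α : Type*) : (Fin 3 → α) ≃ α × α × α where
  toFun f := (f 0, f 1, f 2)
  invFun x := ![x.1, x.2.1, x.2.2]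
  left_inv := by
    intro f
    funext i
    fin_cases i <;> rfl
  right_inv := by
    rintro ⟨a, b, c⟩
    rfl

lemma sum_emb {n : ℕ} (F : Fin n → Fin n → Fin n → ℝ) :
    ∑ f : Fin 3 ↪ Fin n, F (f 0) (f 1) (f 2) =
      ∑ a, ∑ b, ∑ c, (if a ≠ b ∧ a ≠ c ∧ b ≠ c then F a b c else 0) := by
  classical
  have h1 : ∑ f : Fin 3 ↪ Fin n, F (f 0) (f 1) (f 2) =
      ∑ f : {f : Fin 3 → Fin n // Function.Injective f}, F (f.1 0) (f.1 1) (f.1 2) :=
    (Fintype.sum_equiv (Equiv.subtypeInjectiveEquivEmbedding (Fin 3) (Fin n)) _ _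
      (fun _ => rfl)).symm
  have h2 : ∑ f : {f : Fin 3 → Fin n // Function.Injective f}, F (f.1 0) (f.1 1) (f.1 2) =
      ∑ f : Fin 3 → Fin n, if Function.Injective f then F (f 0) (f 1) (f 2) else 0 := by
    rw [← Finset.sum_filter]
    exact (Finset.sum_subtype (Finset.univ.filter (fun f : Fin 3 → Fin n => Function.Injective f))
      (by intro x; simp) (fun f => F (f 0) (f 1) (f 2))).symm
  rw [h1, h2, Fintype.sum_equiv (tripleEquiv (Fin n)) _
    (fun x => if x.1 ≠ x.2.1 ∧ x.1 ≠ x.2.2 ∧ x.2.1 ≠ x.2.2 then F x.1 x.2.1 x.2.2 else 0)]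
  · rw [Fintype.sum_prod_type]
    apply Finset.sum_congr rfl; intro a _
    rw [Fintype.sum_prod_type]
  · intro f
    have h3 : Function.Injective f ↔ (f 0 ≠ f 1 ∧ f 0 ≠ f 2 ∧ f 1 ≠ f 2) := by
      constructor
      · intro h
        exact ⟨fun e => absurd (h e) (by decide), fun e => absurd (h e) (by decide),
          fun e => absurd (h e) (by decide)⟩
      · rintro ⟨h01, h02, h12⟩ i j hij
        fin_cases i <;> fin_cases j <;> simp_all
    simp only [tripleEquiv, Equiv.coe_fn_mk, h3]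

/-- The number of negative 6-circles. -/
lemma count_six {n : ℕ} (σ : Fin 3 × Fin n → ℤˣ) :
    (negCount (k3 n) σ 6 : ℝ) = ((n : ℝ) * (n - 1) * (n - 2) - PS σ 0 * PS σ 1 * PS σ 2
      + PS σ 0 ^ 2 + PS σ 1 ^ 2 + PS σ 2 ^ 2 - 2 * n) / 2 := by
  classical
  rw [negCount_eq]
  have h1 : circ (k3 n) 6 = (Finset.univ : Finset (Fin 3 ↪ Fin n)).image
        (fun f => hexa f) := by
    ext S
    unfold circ
    simp only [Finset.mem_filter, Finset.mem_univ, true_and, Finset.mem_image]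
    constructor
    · rintro ⟨hS, hc⟩
      obtain ⟨f, rfl⟩ := circle_six hS hc
      exact ⟨f, rfl⟩
    · rintro ⟨f, rfl⟩
      exact ⟨hexa_isCircle f, hexa_card f⟩
  rw [h1, Finset.sum_image (fun a _ b _ h => hexa_inj h)]
  simp only [prod_hexa]
  have h2 : ∑ f : Fin 3 ↪ Fin n, (1 - (((∏ k, pc σ k (f k) : ℤˣ) : ℤ) : ℝ)) / 2 =
      (∑ _f : Fin 3 ↪ Fin n, (1 : ℝ) / 2) - (∑ f : Fin 3 ↪ Fin n,
        ((pc σ 0 (f 0) : ℤ) : ℝ) * ((pc σ 1 (f 1) : ℤ) : ℝ) *
        ((pc σ 2 (f 2) : ℤ) : ℝ)) / 2 := by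
    rw [Finset.sum_div, ← Finset.sum_sub_distrib]
    apply Finset.sum_congr rfl
    intro f _
    rw [Fin.prod_univ_three]
    push_cast
    ring
  rw [h2]
  have e1 := sum_emb (n := n) (fun a b c => ((pc σ 0 a : ℤ) : ℝ) * ((pc σ 1 b : ℤ) : ℝ) *
        ((pc σ 2 c : ℤ) : ℝ))
  have e2 := sum_emb (n := n) (fun _ _ _ => (1 : ℝ) / 2)
  rw [e1, e2, sum_distinct]
  have e3 := sum_distinct (n := n) (fun _ => 1) (fun _ => 1) (fun _ => 1)
  have e4 : ∑ a : Fin n, ∑ b : Fin n, ∑ c : Fin n,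
      (if a ≠ b ∧ a ≠ c ∧ b ≠ c then (1 : ℝ) / 2 else 0) =
      (∑ a : Fin n, ∑ b : Fin n, ∑ c : Fin n,
      (if a ≠ b ∧ a ≠ c ∧ b ≠ c then (1 : ℝ) * 1 * 1 else 0)) / 2 := by
    rw [Finset.sum_div]; apply Finset.sum_congr rfl; intro a _
    rw [Finset.sum_div]; apply Finset.sum_congr rfl; intro b _
    rw [Finset.sum_div]; apply Finset.sum_congr rfl; intro c _
    split_ifs <;> norm_num
  rw [e4, e3]
  have q01 : ∀ j, ((pc σ 0 j : ℤ) : ℝ) * ((pc σ 1 j : ℤ) : ℝ) = ((pc σ 2 j : ℤ) : ℝ) :=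
    pcr_prod σ
  have q02 : ∀ j, ((pc σ 0 j : ℤ) : ℝ) * ((pc σ 2 j : ℤ) : ℝ) = ((pc σ 1 j : ℤ) : ℝ) := by
    intro j
    rw [← q01 j, ← mul_assoc, ← sq, pc_sq, one_mul]
  have q12 : ∀ j, ((pc σ 1 j : ℤ) : ℝ) * ((pc σ 2 j : ℤ) : ℝ) = ((pc σ 0 j : ℤ) : ℝ) := by
    intro j
    have := pc_sq σ 1 j
    rw [← q01 j]
    linear_combination ((pc σ 0 j : ℤ) : ℝ) * this
  have q012 : ∀ j, ((pc σ 0 j : ℤ) : ℝ) * ((pc σ 1 j : ℤ) : ℝ) * ((pc σ 2 j : ℤ) : ℝ) = 1 := by
    intro j
    rw [q01 j, ← sq, pc_sq]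
  simp only [q01, q02, q12, ← sq, pc_sq]
  simp only [Finset.sum_const, Finset.card_univ, Fintype.card_fin, nsmul_eq_mul, mul_one]
  unfold PS
  ring

end Pool.Agent.NegCirc
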