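import Mathlib
import Pool.Agent.NegCirc.K3nDefs

/-!
The maximum of `e₃ / e₂` over four natural numbers with sum `n` is attained by the balanced
quadruple.
-/

namespace Pool.Agent.NegCirc

lemma smooth (x y c d : ℕ) (h : x + 2 ≤ y) :
    (x * y * c + x * y * d + x * c * d + y * c * d) *
      ((x + 1) * (y - 1) + (x + 1) * c + (x + 1) * d + (y - 1) * c + (y - 1) * d + c * d) ≤
    ((x + 1) * (y - 1) * c + (x + 1) * (y - 1) * d + (x + 1) * c * d + (y - 1) * c * d) *
      (x * y + x * c + x * d + y * c + y * d + c * d) := by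
  obtain ⟨z, rfl⟩ : ∃ z, y = x + 2 + z := ⟨y - (x + 2), by omega⟩
  have : x + 2 + z - 1 = x + 1 + z := by omega
  rw [this]
  have key : (x + 1) * (x + 1 + z) = x * (x + 2 + z) + (1 + z) := by ring
  have e : ((x + 1) * (x + 1 + z) * c + (x + 1) * (x + 1 + z) * d + (x + 1) * c * d +
      (x + 1 + z) * c * d) * (x * (x + 2 + z) + x * c + x * d + (x + 2 + z) * c +
        (x + 2 + z) * d + c * d) =
      (x * (x + 2 + z) * c + x * (x + 2 + z) * d + x * c * d + (x + 2 + z) * c * d) *
      ((x + 1) * (x + 1 + z) + (x + 1) * c + (x + 1) * d + (x + 1 + z) * c +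
        (x + 1 + z) * d + c * d) +
      (1 + z) * ((2 * x + 2 + z) * (c * c + c * d + d * d) + c * d * (c + d)) := by
    rw [key]; ring
  rw [e]
  exact Nat.le_add_right _ _

lemma balanced_eq (a : Fin 4 → ℕ) (n : ℕ) (hs : a 0 + a 1 + a 2 + a 3 = n)
    (h : ∀ i j, a i ≤ a j + 1) : e2 a = e2 (bal n) ∧ e3 a = e3 (bal n) := by
  obtain ⟨i, -, hi⟩ := Finset.exists_min_image (Finset.univ : Finset (Fin 4)) a ⟨0, by simp⟩
  set q := a i with hq
  have h' : ∀ j, a j = q ∨ a j = q + 1 := by
    intro j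
    have h1 := hi j (Finset.mem_univ _)
    have h2 := h j i
    omega
  have hb : ∀ k : ℕ, k < 4 → (∃ j, a j = q) → True := fun _ _ _ => trivial
  have hiq : a i = q := rfl
  have hr : ∃ r, r < 4 ∧ n = 4 * q + r ∧
      r = (a 0 - q) + (a 1 - q) + (a 2 - q) + (a 3 - q) := by
    refine ⟨(a 0 - q) + (a 1 - q) + (a 2 - q) + (a 3 - q), ?_, ?_, rfl⟩
    · have h0 := h' 0
      have h1 := h' 1
      have h2 := h' 2
      have h3 := h' 3
      have hi' : a 0 = q ∨ a 1 = q ∨ a 2 = q ∨ a 3 = q := by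
        fin_cases i
        · exact Or.inl rfl
        · exact Or.inr (Or.inl rfl)
        · exact Or.inr (Or.inr (Or.inl rfl))
        · exact Or.inr (Or.inr (Or.inr rfl))
      omega
    · have h0 := h' 0
      have h1 := h' 1
      have h2 := h' 2
      have h3 := h' 3
      omega
  obtain ⟨r, hr4, hn, hrr⟩ := hr
  have b0 : bal n 0 = q := by unfold bal; simp; omega
  have b1 : bal n 1 = if r = 3 then q + 1 else q := by
    unfold bal; split_ifs <;> simp <;> omega
  have b2 : bal n 2 = if 2 ≤ r then q + 1 else q := by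
    unfold bal; split_ifs <;> simp <;> omega
  have b3 : bal n 3 = if 1 ≤ r then q + 1 else q := by
    unfold bal; split_ifs <;> simp <;> omega
  unfold e2 e3
  rw [b0, b1, b2, b3]
  clear b0 b1 b2 b3 hb hi h
  clear_value q
  rcases h' 0 with h0 | h0 <;> rcases h' 1 with h1 | h1 <;> rcases h' 2 with h2 | h2 <;>
    rcases h' 3 with h3 | h3 <;> rw [h0, h1, h2, h3] at hrr ⊢ <;>
    simp only [Nat.sub_self, Nat.add_sub_cancel_left, Nat.zero_add, Nat.add_zero] at hrr <;>
    norm_num at hrr <;> subst hrr <;>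
    first
      | (exfalso; omega)
      | (constructor <;> norm_num <;> ring)

lemma sumsq_step (x y : ℕ) (h : x + 2 ≤ y) :
    (x + 1) * (x + 1) + (y - 1) * (y - 1) < x * x + y * y := by
  obtain ⟨z, rfl⟩ : ∃ z, y = x + 2 + z := ⟨y - (x + 2), by omega⟩
  have : x + 2 + z - 1 = x + 1 + z := by omega
  rw [this]
  nlinarith

/-- One smoothing step for the indices `i ≠ j`. -/
lemma smooth_fn (a : Fin 4 → ℕ) (i j : Fin 4) (h : a i + 2 ≤ a j) :
    ∃ b : Fin 4 → ℕ, b 0 + b 1 + b 2 + b 3 = a 0 + a 1 + a 2 + a 3 ∧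
      b 0 * b 0 + b 1 * b 1 + b 2 * b 2 + b 3 * b 3 <
        a 0 * a 0 + a 1 * a 1 + a 2 * a 2 + a 3 * a 3 ∧
      e3 a * e2 b ≤ e3 b * e2 a ∧ 0 < b i ∧ 0 < b j ∧ i ≠ j := by
  have hne : i ≠ j := by rintro rfl; omega
  have hj : 1 ≤ a j := by omega
  have sq := sumsq_step _ _ h
  refine ⟨fun k => if k = i then a i + 1 else if k = j then a j - 1 else a k, ?_, ?_, ?_, ?_, ?_,
    hne⟩
  · fin_cases i <;> fin_cases j <;> simp_all <;> omega
  · fin_cases i <;> fin_cases j <;> simp_all <;> omega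
  · unfold e2 e3
    fin_cases i <;> fin_cases j <;> simp only [Fin.mk_zero, Fin.mk_one, Fin.reduceFinMk,
      Fin.zero_eta, Fin.isValue, ne_eq, not_true_eq_false] at h hne ⊢ <;>
      first
        | exact absurd rfl hne
        | (simp only [Fin.reduceEq, if_true, if_false, reduceIte]
           first
            | (have := smooth _ _ (a 2) (a 3) h; linarith)
            | (have := smooth _ _ (a 1) (a 3) h; linarith)
            | (have := smooth _ _ (a 1) (a 2) h; linarith)
            | (have := smooth _ _ (a 0) (a 3) h; linarith)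
            | (have := smooth _ _ (a 0) (a 2) h; linarith)
            | (have := smooth _ _ (a 0) (a 1) h; linarith))
  · simp
  · simp only [hne.symm, if_false, if_true, reduceIte]
    omega

lemma e2_pos (b : Fin 4 → ℕ) (i j : Fin 4) (hij : i ≠ j) (hi : 0 < b i) (hj : 0 < b j) :
    0 < e2 b := by
  have h := Nat.mul_pos hi hj
  have h1 : b i * b j ≤ e2 b := by
    have h01 := Nat.zero_le (b 0 * b 1)
    have h02 := Nat.zero_le (b 0 * b 2)
    have h03 := Nat.zero_le (b 0 * b 3)
    have h12 := Nat.zero_le (b 1 * b 2)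
    have h13 := Nat.zero_le (b 1 * b 3)
    have h23 := Nat.zero_le (b 2 * b 3)
    unfold e2
    clear h hi hj
    fin_cases i <;> fin_cases j <;> simp at hij ⊢ <;> linarith
  exact lt_of_lt_of_le h h1

theorem ratio_le (n : ℕ) (a : Fin 4 → ℕ) (hs : a 0 + a 1 + a 2 + a 3 = n) :
    e3 a * e2 (bal n) ≤ e3 (bal n) * e2 a := by
  have main : ∀ N : ℕ, ∀ a : Fin 4 → ℕ, a 0 + a 1 + a 2 + a 3 = n →
      a 0 * a 0 + a 1 * a 1 + a 2 * a 2 + a 3 * a 3 ≤ N →
      e3 a * e2 (bal n) ≤ e3 (bal n) * e2 a := by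
    intro N
    induction N with
    | zero =>
      intro a hs hN
      have h0 : a 0 = 0 := by nlinarith
      have h1 : a 1 = 0 := by nlinarith
      have h2 : a 2 = 0 := by nlinarith
      have h3 : a 3 = 0 := by nlinarith
      unfold e3
      simp [h0, h1, h2, h3]
    | succ N ih =>
      intro a hs hN
      by_cases hb : ∀ i j, a i ≤ a j + 1
      · obtain ⟨h1, h2⟩ := balanced_eq a n hs hb
        rw [h1, h2]
      · push Not at hb
        obtain ⟨j, i, hij⟩ := hb
        obtain ⟨b, hb1, hb2, hb3, hb4, hb5, hb6⟩ := smooth_fn a i j (by omega)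
        have hpos := e2_pos b i j hb6 hb4 hb5
        have h4 := ih b (by omega) (by omega)
        have h5 : e2 b * (e3 a * e2 (bal n)) ≤ e2 b * (e3 (bal n) * e2 a) := by
          calc e2 b * (e3 a * e2 (bal n)) = (e3 a * e2 b) * e2 (bal n) := by ring
            _ ≤ (e3 b * e2 a) * e2 (bal n) := Nat.mul_le_mul_right _ hb3
            _ = (e3 b * e2 (bal n)) * e2 a := by ring
            _ ≤ (e3 (bal n) * e2 b) * e2 a := Nat.mul_le_mul_right _ h4
            _ = e2 b * (e3 (bal n) * e2 a) := by ring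
        exact Nat.le_of_mul_le_mul_left h5 hpos
  exact main _ a hs le_rfl

end Pool.Agent.NegCirc
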