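import Mathlib
import Pool.Agent.NegCirc.Defs
import Pool.Agent.NegCirc.Basic
import Pool.Agent.NegCirc.K3nDefs
import Pool.Agent.NegCirc.K3nCirc
import Pool.Agent.NegCirc.K3nCount
import Pool.Agent.NegCirc.K3nRatio

namespace Pool.Agent.NegCirc

/-- The type of the column `j`. -/
def tp {n : ℕ} (σ : Fin 3 × Fin n → ℤˣ) (j : Fin n) : Fin 4 :=
  if pc σ 0 j = 1 then (if pc σ 1 j = 1 then 0 else 1) else (if pc σ 1 j = 1 then 2 else 3)

/-- The number of columns of type `t`. -/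
def ct {n : ℕ} (σ : Fin 3 × Fin n → ℤˣ) (t : Fin 4) : ℕ :=
  (Finset.univ.filter (fun j => tp σ j = t)).card

lemma ct_cast {n : ℕ} (σ : Fin 3 × Fin n → ℤˣ) (t : Fin 4) :
    (ct σ t : ℝ) = ∑ j, if tp σ j = t then (1 : ℝ) else 0 := by
  unfold ct
  rw [Finset.card_filter]
  push_cast
  rfl

lemma ct_sum {n : ℕ} (σ : Fin 3 × Fin n → ℤˣ) : ct σ 0 + ct σ 1 + ct σ 2 + ct σ 3 = n := by
  have h : ((ct σ 0 + ct σ 1 + ct σ 2 + ct σ 3 : ℕ) : ℝ) = n := by
    push_cast
    rw [ct_cast, ct_cast, ct_cast, ct_cast, ← Finset.sum_add_distrib, ← Finset.sum_add_distrib,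
      ← Finset.sum_add_distrib, Finset.sum_congr rfl (g := fun _ => (1 : ℝ))]
    · simp
    · intro j _
      generalize tp σ j = t
      fin_cases t <;> norm_num [Fin.ext_iff]
  exact_mod_cast h

lemma PS_zero {n : ℕ} (σ : Fin 3 × Fin n → ℤˣ) :
    PS σ 0 = (ct σ 0 : ℝ) + ct σ 1 - ct σ 2 - ct σ 3 := by
  unfold PS
  rw [ct_cast, ct_cast, ct_cast, ct_cast, ← Finset.sum_add_distrib, ← Finset.sum_sub_distrib,
      ← Finset.sum_sub_distrib]
  apply Finset.sum_congr rfl
  intro j _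
  unfold tp
  rcases Int.units_eq_one_or (pc σ 0 j) with h0 | h0 <;>
    rcases Int.units_eq_one_or (pc σ 1 j) with h1 | h1 <;> rw [h0, h1] <;> norm_num [Fin.ext_iff]

lemma PS_one {n : ℕ} (σ : Fin 3 × Fin n → ℤˣ) :
    PS σ 1 = (ct σ 0 : ℝ) - ct σ 1 + ct σ 2 - ct σ 3 := by
  unfold PS
  rw [ct_cast, ct_cast, ct_cast, ct_cast, ← Finset.sum_sub_distrib, ← Finset.sum_add_distrib,
      ← Finset.sum_sub_distrib]
  apply Finset.sum_congr rfl
  intro j _
  unfold tp
  rcases Int.units_eq_one_or (pc σ 0 j) with h0 | h0 <;>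
    rcases Int.units_eq_one_or (pc σ 1 j) with h1 | h1 <;> rw [h0, h1] <;> norm_num [Fin.ext_iff]

lemma PS_two {n : ℕ} (σ : Fin 3 × Fin n → ℤˣ) :
    PS σ 2 = (ct σ 0 : ℝ) - ct σ 1 - ct σ 2 + ct σ 3 := by
  unfold PS
  rw [ct_cast, ct_cast, ct_cast, ct_cast, ← Finset.sum_sub_distrib, ← Finset.sum_sub_distrib,
      ← Finset.sum_add_distrib]
  apply Finset.sum_congr rfl
  intro j _
  rw [← pc_prod]
  unfold tp
  rcases Int.units_eq_one_or (pc σ 0 j) with h0 | h0 <;>
    rcases Int.units_eq_one_or (pc σ 1 j) with h1 | h1 <;> rw [h0, h1] <;> norm_num [Fin.ext_iff]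

lemma count_four' {n : ℕ} (σ : Fin 3 × Fin n → ℤˣ) :
    (negCount (k3 n) σ 4 : ℝ) = 2 * (e2 (ct σ) : ℝ) := by
  have hn : (n : ℝ) = ct σ 0 + ct σ 1 + ct σ 2 + ct σ 3 := by exact_mod_cast (ct_sum σ).symm
  rw [count_four, Fin.sum_univ_three, PS_zero, PS_one, PS_two, hn]
  unfold e2
  push_cast
  ring

lemma count_six' {n : ℕ} (σ : Fin 3 × Fin n → ℤˣ) :
    (negCount (k3 n) σ 6 : ℝ) =
      2 * (((n : ℝ) - 2) * (e2 (ct σ) : ℝ) - 2 * (e3 (ct σ) : ℝ)) := by
  have hn : (n : ℝ) = ct σ 0 + ct σ 1 + ct σ 2 + ct σ 3 := by exact_mod_cast (ct_sum σ).symm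
  rw [count_six, PS_zero, PS_one, PS_two, hn]
  unfold e2 e3
  push_cast
  ring

/-- A signature with prescribed column types. -/
def sig {n : ℕ} (t : Fin n → Fin 4) : Fin 3 × Fin n → ℤˣ := fun e =>
  if e.1 = 0 then (if t e.2 = 0 ∨ t e.2 = 2 then 1 else -1)
  else if e.1 = 1 then (if t e.2 = 0 ∨ t e.2 = 1 then 1 else -1) else 1

lemma tp_sig {n : ℕ} (t : Fin n → Fin 4) (j : Fin n) : tp (sig t) j = t j := by
  have h0 : (Finset.univ.filter (fun i : Fin 3 => i ≠ 0)) = {1, 2} := by decide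
  have h1 : (Finset.univ.filter (fun i : Fin 3 => i ≠ 1)) = {0, 2} := by decide
  unfold tp pc
  rw [h0, h1, Finset.prod_pair (by decide), Finset.prod_pair (by decide)]
  unfold sig
  simp only [Fin.isValue, one_ne_zero, if_false, if_true, Fin.reduceEq, mul_one]
  generalize t j = s
  fin_cases s <;> decide

lemma ct_sig {n : ℕ} (t : Fin n → Fin 4) (s : Fin 4) :
    ct (sig t) s = (Finset.univ.filter (fun j => t j = s)).card := by
  unfold ct
  simp only [tp_sig]

/-- The signature with one special column. -/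
def t1 (n : ℕ) : Fin n → Fin 4 := fun j => if (j : ℕ) = 0 then 1 else 0

/-- The balanced signature. -/
def t2 (n : ℕ) : Fin n → Fin 4 := fun j => ⟨(j : ℕ) % 4, Nat.mod_lt _ (by norm_num)⟩

lemma ct_t1 {n : ℕ} (hn : 1 ≤ n) : e2 (ct (sig (t1 n))) = n - 1 ∧ e3 (ct (sig (t1 n))) = 0 := by
  have h1 : ct (sig (t1 n)) 1 = 1 := by
    rw [ct_sig, Finset.card_eq_one]
    refine ⟨⟨0, hn⟩, ?_⟩
    ext j
    simp only [t1, Finset.mem_filter, Finset.mem_univ, true_and, Finset.mem_singleton,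
      Fin.ext_iff]
    by_cases h : (j : ℕ) = 0
    · simp [h]
    · simp [h]
  have h2 : ct (sig (t1 n)) 2 = 0 := by
    rw [ct_sig, Finset.card_eq_zero, Finset.filter_eq_empty_iff]
    intro j _
    unfold t1
    split_ifs <;> decide
  have h3 : ct (sig (t1 n)) 3 = 0 := by
    rw [ct_sig, Finset.card_eq_zero, Finset.filter_eq_empty_iff]
    intro j _
    unfold t1
    split_ifs <;> decide
  have h0 := ct_sum (sig (t1 n))
  rw [h1, h2, h3] at h0
  unfold e2 e3
  rw [h1, h2, h3]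
  constructor
  · simp; omega
  · simp

lemma ct_t2 (n : ℕ) : e2 (ct (sig (t2 n))) = e2 (bal n) ∧
    e3 (ct (sig (t2 n))) = e3 (bal n) := by
  have h : ∀ s : Fin 4, ct (sig (t2 n)) s = (n + 3 - s) / 4 := by
    intro s
    rw [ct_sig]
    have h1 : (Finset.univ.filter (fun j : Fin n => t2 n j = s)).card =
        ((Finset.range n).filter (fun j => j % 4 = (s : ℕ))).card := by
      apply Finset.card_bij (fun (j : Fin n) _ => (j : ℕ))
      · intro j hj
        simp only [t2, Finset.mem_filter, Finset.mem_univ, true_and, Fin.ext_iff] at hj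
        exact Finset.mem_filter.2 ⟨Finset.mem_range.2 j.2, hj⟩
      · intro a _ b _ hab
        exact Fin.ext hab
      · intro b hb
        obtain ⟨hb1, hb2⟩ := Finset.mem_filter.1 hb
        refine ⟨⟨b, Finset.mem_range.1 hb1⟩, ?_, rfl⟩
        simp only [t2, Finset.mem_filter, Finset.mem_univ, true_and, Fin.ext_iff]
        exact hb2
    rw [h1]
    have h2 : ∀ m : ℕ, ((Finset.range m).filter (fun j => j % 4 = (s : ℕ))).card =
        (m + 3 - s) / 4 := by
      intro m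
      have hs := s.2
      induction m with
      | zero => simp; omega
      | succ m ih =>
        rw [Finset.range_add_one, Finset.filter_insert]
        split_ifs with hm
        · rw [Finset.card_insert_of_notMem (by simp), ih]
          omega
        · rw [ih]
          omega
    exact h2 n
  apply balanced_eq _ _ (ct_sum _)
  intro i j
  rw [h i, h j]
  have := i.2
  have := j.2
  omega

lemma bal_pos {n : ℕ} (hn : 3 ≤ n) : 0 < e2 (bal n) ∧ 0 < e3 (bal n) := by
  have h1 : 1 ≤ bal n 1 := by unfold bal; simp; omega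
  have h2 : 1 ≤ bal n 2 := by unfold bal; simp; omega
  have h3 : 1 ≤ bal n 3 := by unfold bal; simp; omega
  have h12 : 1 ≤ bal n 1 * bal n 2 := Nat.mul_pos h1 h2
  have h123 : 1 ≤ bal n 1 * bal n 2 * bal n 3 := Nat.mul_pos h12 h3
  unfold e2 e3
  constructor <;> omega

lemma oneNeg_eq (n : ℕ) : oneNeg n = sig (t1 n) := by
  funext e
  obtain ⟨i, j⟩ := e
  unfold oneNeg sig t1
  simp only
  by_cases hj : (j : ℕ) = 0
  · fin_cases i <;> simp [hj]
  · fin_cases i <;> simp [hj]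

lemma balSig_eq (n : ℕ) : balSig n = sig (t2 n) := by
  funext e
  obtain ⟨i, j⟩ := e
  unfold balSig sig t2
  simp only [Fin.ext_iff]
  have h4 := Nat.mod_lt (j : ℕ) (show 0 < 4 by norm_num)
  have h2 : (j : ℕ) % 2 = ((j : ℕ) % 4) % 2 := by omega
  rw [h2]
  generalize (j : ℕ) % 4 = r at h4
  interval_cases r <;> fin_cases i <;> simp

end Pool.Agent.NegCirc
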