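import Mathlib
import Pool.Agent.NegCirc.Defs

/-!
Generalized theta graphs: `m` internally disjoint paths of lengths `a 0, …, a (m-1)` between
two vertices.
-/

namespace Pool.Agent.NegCirc

/-- The vertices: the two end vertices `inl 0`, `inl 1` and the inner vertices `inr ⟨i, l⟩`
of the path `i`. -/
abbrev ThV {m : ℕ} (a : Fin m → ℕ) : Type := Fin 2 ⊕ (Σ i : Fin m, Fin (a i - 1))

/-- The edges: the edge `⟨i, j⟩` is the `j`-th edge of the path `i`. -/
abbrev ThE {m : ℕ} (a : Fin m → ℕ) : Type := Σ i : Fin m, Fin (a i)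

/-- The vertex number `j` on the path `i`. -/
def thVx {m : ℕ} (a : Fin m → ℕ) (i : Fin m) (j : ℕ) : ThV a :=
  if _h0 : j = 0 then Sum.inl 0
  else if h : j < a i then Sum.inr ⟨i, ⟨j - 1, by omega⟩⟩ else Sum.inl 1

/-- The generalized theta graph with path lengths `a i`. -/
def theta {m : ℕ} (a : Fin m → ℕ) : ThE a → Sym2 (ThV a) :=
  fun e => s(thVx a e.1 e.2, thVx a e.1 (e.2 + 1))

/-- `y` lies in the cut cone: the cone generated by the cut vectors `δ(s)`,
`δ(s) i j = 1` if `s` separates `i` and `j`, and `0` otherwise. -/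
def InCutCone {m : ℕ} (y : Fin m → Fin m → ℝ) : Prop :=
  ∃ μ : (Fin m → Bool) → ℝ, (∀ s, 0 ≤ μ s) ∧
    ∀ i j, y i j = ∑ s, μ s * (if s i ≠ s j then 1 else 0)

end Pool.Agent.NegCirc
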