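import Mathlib
import Pool.Agent.NegCirc.Defs
import Pool.Agent.NegCirc.Basic
import Pool.Agent.NegCirc.ThetaDefs

/-!
The circles of a generalized theta graph are the unions of two of its paths.
-/

namespace Pool.Agent.NegCirc

variable {m : ℕ} {a : Fin m → ℕ}

lemma thVx_zero (i : Fin m) : thVx a i 0 = Sum.inl 0 := by simp [thVx]

lemma thVx_last {i : Fin m} (h : 1 ≤ a i) : thVx a i (a i) = Sum.inl 1 := by
  unfold thVx
  rw [dif_neg (by omega), dif_neg (by omega)]

lemma thVx_eq_inr {i : Fin m} {j : ℕ} {k : Fin m} {l : Fin (a k - 1)} :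
    thVx a i j = Sum.inr ⟨k, l⟩ ↔ i = k ∧ j = (l : ℕ) + 1 := by
  unfold thVx
  split_ifs with h0 h
  · simp [h0]
  · rw [Sum.inr.injEq]
    constructor
    · intro h1
      obtain ⟨h2, h3⟩ := Sigma.mk.inj h1
      subst h2
      have := Fin.ext_iff.1 (eq_of_heq h3)
      simp only at this
      exact ⟨rfl, by omega⟩
    · rintro ⟨h1, h2⟩
      subst h1
      congr 1
      apply Fin.ext
      simp only
      omega
  · constructor
    · intro h1; cases h1
    · rintro ⟨h1, h2⟩
      subst h1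
      have := l.2
      omega

lemma thVx_eq_zero {i : Fin m} {j : ℕ} : thVx a i j = Sum.inl 0 ↔ j = 0 := by
  unfold thVx
  split_ifs with h0 h
  · simp [h0]
  · simp [h0]
  · simp [h0]

lemma thVx_eq_one {i : Fin m} {j : ℕ} : thVx a i j = Sum.inl 1 ↔ j ≠ 0 ∧ a i ≤ j := by
  unfold thVx
  split_ifs with h0 h
  · simp [h0]
  · simp; intro _; omega
  · simp [h0]; omega

lemma mult_of {V : Type*} [DecidableEq V] {v x y : V} (h : x ≠ y) :
    mult v s(x, y) = (if v = x then 1 else 0) + (if v = y then 1 else 0) := by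
  unfold mult
  have h1 : ¬ s(x, y) = s(v, v) := by
    intro e
    rw [Sym2.eq_iff] at e
    rcases e with e | e <;> exact h (e.1.trans e.2.symm)
  rw [if_neg h1]
  simp only [Sym2.mem_iff]
  by_cases hx : v = x
  · subst hx; simp [h]
  · by_cases hy : v = y
    · subst hy; simp [hx]
    · simp [hx, hy]

lemma th_ne (e : ThE a) : thVx a e.1 e.2 ≠ thVx a e.1 (e.2 + 1) := by
  obtain ⟨i, j⟩ := e
  intro h
  simp only at h
  by_cases h0 : (j : ℕ) = 0
  · rw [h0, thVx_zero] at h
    have := thVx_eq_zero.1 h.symm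
    omega
  · have hj := j.2
    have h1 : thVx a i j = Sum.inr ⟨i, ⟨j - 1, by omega⟩⟩ :=
      thVx_eq_inr.2 ⟨rfl, by simp only; omega⟩
    rw [h1] at h
    have := (thVx_eq_inr.1 h.symm).2
    simp only at this
    omega

lemma deg_inner (S : Finset (ThE a)) (i : Fin m) (l : Fin (a i - 1)) :
    degIn (theta a) S (Sum.inr ⟨i, l⟩) =
      (if (⟨i, ⟨l, by omega⟩⟩ : ThE a) ∈ S then 1 else 0) +
      (if (⟨i, ⟨l + 1, by omega⟩⟩ : ThE a) ∈ S then 1 else 0) := by
  unfold degIn theta
  have h : ∀ e ∈ S, mult (Sum.inr ⟨i, l⟩ : ThV a) s(thVx a e.1 e.2, thVx a e.1 (e.2 + 1)) =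
      (if e = (⟨i, ⟨l, by omega⟩⟩ : ThE a) then 1 else 0) +
      (if e = (⟨i, ⟨l + 1, by omega⟩⟩ : ThE a) then 1 else 0) := by
    rintro ⟨k, j⟩ _
    rw [mult_of (th_ne _), add_comm]
    have e1 : (Sum.inr ⟨i, l⟩ = thVx a k ((j : ℕ) + 1)) ↔
        (⟨k, j⟩ : ThE a) = ⟨i, ⟨l, by omega⟩⟩ := by
      rw [eq_comm, thVx_eq_inr]
      constructor
      · rintro ⟨rfl, h2⟩
        congr 1
        apply Fin.ext; simp only; omega
      · intro h
        obtain ⟨h2, h3⟩ := Sigma.mk.inj h
        subst h2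
        have := Fin.ext_iff.1 (eq_of_heq h3)
        simp only at this
        exact ⟨rfl, by omega⟩
    have e2 : (Sum.inr ⟨i, l⟩ = thVx a k (j : ℕ)) ↔
        (⟨k, j⟩ : ThE a) = ⟨i, ⟨l + 1, by omega⟩⟩ := by
      rw [eq_comm, thVx_eq_inr]
      constructor
      · rintro ⟨rfl, h2⟩
        congr 1
        apply Fin.ext; simp only; omega
      · intro h
        obtain ⟨h2, h3⟩ := Sigma.mk.inj h
        subst h2
        have := Fin.ext_iff.1 (eq_of_heq h3)
        simp only at this
        exact ⟨rfl, by omega⟩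
    simp only [e1, e2]
  rw [Finset.sum_congr rfl h, Finset.sum_add_distrib, Finset.sum_ite_eq', Finset.sum_ite_eq']

/-- The path `i`. -/
def pth (a : Fin m → ℕ) (i : Fin m) : Finset (ThE a) := Finset.univ.filter (fun e => e.1 = i)

lemma mem_pth {i : Fin m} {e : ThE a} : e ∈ pth a i ↔ e.1 = i := by simp [pth]

lemma card_pth (i : Fin m) : (pth a i).card = a i := by
  have : pth a i = (Finset.univ : Finset (Fin (a i))).map ⟨fun j => (⟨i, j⟩ : ThE a), by
      intro x y h; exact eq_of_heq (Sigma.mk.inj h).2⟩ := by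
    ext ⟨k, j⟩
    simp only [mem_pth, Finset.mem_map, Finset.mem_univ, true_and, Function.Embedding.coeFn_mk]
    constructor
    · rintro rfl; exact ⟨j, rfl⟩
    · rintro ⟨j', h⟩
      exact (Sigma.mk.inj h).1.symm
  rw [this, Finset.card_map]
  simp

/-- Constant along a path. -/
lemma chain {i : Fin m} {P : ThE a → Prop}
    (h : ∀ (j : ℕ) (hj : j + 1 < a i), P ⟨i, ⟨j, by omega⟩⟩ ↔ P ⟨i, ⟨j + 1, hj⟩⟩) :
    ∀ (j : ℕ) (hj : j < a i) (h0 : 0 < a i), P ⟨i, ⟨j, hj⟩⟩ ↔ P ⟨i, ⟨0, h0⟩⟩ := by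
  intro j
  induction j with
  | zero => intro _ _; rfl
  | succ j ih =>
    intro hj h0
    rw [← h j hj]
    exact ih (by omega) h0

lemma deg_zero (ha : ∀ i, 1 ≤ a i) (S : Finset (ThE a)) :
    degIn (theta a) S (Sum.inl 0) =
      (Finset.univ.filter (fun i : Fin m => (⟨i, ⟨0, ha i⟩⟩ : ThE a) ∈ S)).card := by
  unfold degIn theta
  rw [Finset.card_filter]
  have h : ∀ e ∈ S, mult (Sum.inl 0 : ThV a) s(thVx a e.1 e.2, thVx a e.1 (e.2 + 1)) =
      ∑ i : Fin m, if e = (⟨i, ⟨0, ha i⟩⟩ : ThE a) then 1 else 0 := by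
    rintro ⟨k, j⟩ _
    rw [mult_of (th_ne _)]
    have e1 : (Sum.inl 0 = thVx a k (j : ℕ)) ↔ (j : ℕ) = 0 := by
      rw [eq_comm, thVx_eq_zero]
    have e2 : ¬ (Sum.inl 0 = thVx a k ((j : ℕ) + 1)) := by
      rw [eq_comm, thVx_eq_zero]; omega
    simp only [e1, e2, if_false, add_zero]
    by_cases hj : (j : ℕ) = 0
    · rw [if_pos hj, Finset.sum_eq_single k]
      · rw [if_pos]
        congr 1
        apply Fin.ext; exact hj
      · intro b _ hb
        rw [if_neg]
        intro h
        exact hb (Sigma.mk.inj h).1.symm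
      · simp
    · rw [if_neg hj, Finset.sum_eq_zero]
      intro b _
      rw [if_neg]
      intro h
      obtain ⟨h2, h3⟩ := Sigma.mk.inj h
      subst h2
      exact hj (Fin.ext_iff.1 (eq_of_heq h3))
  rw [Finset.sum_congr rfl h, Finset.sum_comm]
  apply Finset.sum_congr rfl
  intro i _
  rw [Finset.sum_ite_eq']

lemma deg_one (ha : ∀ i, 1 ≤ a i) (S : Finset (ThE a)) :
    degIn (theta a) S (Sum.inl 1) =
      (Finset.univ.filter (fun i : Fin m =>
        (⟨i, ⟨a i - 1, by have := ha i; omega⟩⟩ : ThE a) ∈ S)).card := by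
  unfold degIn theta
  rw [Finset.card_filter]
  have h : ∀ e ∈ S, mult (Sum.inl 1 : ThV a) s(thVx a e.1 e.2, thVx a e.1 (e.2 + 1)) =
      ∑ i : Fin m, if e = (⟨i, ⟨a i - 1, by have := ha i; omega⟩⟩ : ThE a) then 1 else 0 := by
    rintro ⟨k, j⟩ _
    rw [mult_of (th_ne _)]
    have hj := j.2
    have e1 : ¬ (Sum.inl 1 = thVx a k (j : ℕ)) := by
      rw [eq_comm, thVx_eq_one]; omega
    have e2 : (Sum.inl 1 = thVx a k ((j : ℕ) + 1)) ↔ (j : ℕ) = a k - 1 := by
      rw [eq_comm, thVx_eq_one]; omega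
    simp only [e1, e2, if_false, zero_add]
    by_cases hj : (j : ℕ) = a k - 1
    · rw [if_pos hj, Finset.sum_eq_single k]
      · rw [if_pos]
        congr 1
        apply Fin.ext; exact hj
      · intro b _ hb
        rw [if_neg]
        intro h
        exact hb (Sigma.mk.inj h).1.symm
      · simp
    · rw [if_neg hj, Finset.sum_eq_zero]
      intro b _
      rw [if_neg]
      intro h
      obtain ⟨h2, h3⟩ := Sigma.mk.inj h
      subst h2
      exact hj (Fin.ext_iff.1 (eq_of_heq h3))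
  rw [Finset.sum_congr rfl h, Finset.sum_comm]
  apply Finset.sum_congr rfl
  intro i _
  rw [Finset.sum_ite_eq']

lemma circle_theta (ha : ∀ i, 1 ≤ a i) (S : Finset (ThE a)) :
    IsCircle (theta a) S ↔ ∃ i j, i < j ∧ S = pth a i ∪ pth a j := by
  constructor
  · rintro ⟨hne, hdeg, -⟩
    have hchain : ∀ (i : Fin m) (j : ℕ) (hj : j < a i),
        ((⟨i, ⟨j, hj⟩⟩ : ThE a) ∈ S ↔ (⟨i, ⟨0, ha i⟩⟩ : ThE a) ∈ S) := by
      intro i j hj
      apply chain (P := fun e => e ∈ S) _ j hj (ha i)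
      intro j hj
      have h1 := hdeg (Sum.inr ⟨i, ⟨j, by omega⟩⟩)
      rw [deg_inner] at h1
      simp only at h1 ⊢
      by_cases c1 : (⟨i, ⟨j, by omega⟩⟩ : ThE a) ∈ S <;>
        by_cases c2 : (⟨i, ⟨j + 1, hj⟩⟩ : ThE a) ∈ S
      · exact ⟨fun _ => c2, fun _ => c1⟩
      · rw [if_pos c1, if_neg c2] at h1; omega
      · rw [if_neg c1, if_pos c2] at h1; omega
      · exact ⟨fun h => absurd h c1, fun h => absurd h c2⟩
    set I := Finset.univ.filter (fun i : Fin m => (⟨i, ⟨0, ha i⟩⟩ : ThE a) ∈ S) with hI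
    have hmem : ∀ e : ThE a, e ∈ S ↔ e.1 ∈ I := by
      rintro ⟨i, j⟩
      rw [hI, Finset.mem_filter]
      simp only [Finset.mem_univ, true_and]
      exact hchain i j j.2
    have hIc : I.card = 2 := by
      have h1 := hdeg (Sum.inl 0)
      rw [deg_zero ha] at h1
      rcases h1 with h1 | h1
      · exfalso
        obtain ⟨e, he⟩ := hne
        have h2 := (hmem e).1 he
        rw [← hI, Finset.card_eq_zero] at h1
        rw [h1] at h2
        exact absurd h2 (Finset.notMem_empty _)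
      · exact h1
    obtain ⟨i, j, hij, hIij⟩ := Finset.card_eq_two.1 hIc
    have hS : S = pth a i ∪ pth a j := by
      ext e
      rw [hmem, hIij, Finset.mem_union, mem_pth, mem_pth]
      simp
    rcases lt_or_gt_of_ne hij with h | h
    · exact ⟨i, j, h, hS⟩
    · exact ⟨j, i, h, by rw [hS, Finset.union_comm]⟩
  · rintro ⟨i, j, hij, rfl⟩
    have hne : i ≠ j := ne_of_lt hij
    have hall : ∀ i j : Fin m, i ≠ j → (Finset.univ.filter (fun k : Fin m => k = i ∨ k = j)).card
        = 2 := by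
      intro i j h
      have : Finset.univ.filter (fun k : Fin m => k = i ∨ k = j) = {i, j} := by
        ext k; simp
      rw [this, Finset.card_pair h]
    refine ⟨⟨⟨i, ⟨0, ha i⟩⟩, by simp [mem_pth]⟩, ?_, ?_⟩
    · rintro (v | ⟨k, l⟩)
      · fin_cases v
        · right
          simp only [Fin.zero_eta, Fin.isValue]
          rw [deg_zero ha, ← hall i j hne]
          congr 1
          ext k
          simp [mem_pth]
        · right
          simp only [Fin.mk_one, Fin.isValue]
          rw [deg_one ha, ← hall i j hne]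
          congr 1
          ext k
          simp [mem_pth]
      · rw [deg_inner]
        simp only [Finset.mem_union, mem_pth]
        by_cases hk : k = i ∨ k = j
        · right; simp [hk]
        · left; simp [hk]
    · intro A hA hAn hAne
      by_contra hcon
      push Not at hcon
      have hcl : ∀ e ∈ A, ∀ f ∈ pth a i ∪ pth a j, (∃ v, v ∈ theta a e ∧ v ∈ theta a f) →
          f ∈ A := by
        intro e he f hf ⟨v, hv1, hv2⟩
        by_contra hfA
        exact hcon e he f (Finset.mem_sdiff.2 ⟨hf, hfA⟩) v hv1 hv2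
      have hmemU : ∀ k, (k = i ∨ k = j) → ∀ l : Fin (a k), (⟨k, l⟩ : ThE a) ∈ pth a i ∪ pth a j := by
        intro k hk l
        rw [Finset.mem_union, mem_pth, mem_pth]
        exact hk
      have hch : ∀ k, (k = i ∨ k = j) → ∀ (l : ℕ) (hl : l < a k),
          ((⟨k, ⟨l, hl⟩⟩ : ThE a) ∈ A ↔ (⟨k, ⟨0, ha k⟩⟩ : ThE a) ∈ A) := by
        intro k hk l hl
        apply chain (P := fun e => e ∈ A) _ l hl (ha k)
        intro l hl
        constructor
        · intro h
          exact hcl _ h _ (hmemU k hk _) ⟨thVx a k (l + 1), by simp [theta], by simp [theta]⟩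
        · intro h
          exact hcl _ h _ (hmemU k hk _) ⟨thVx a k (l + 1), by simp [theta], by simp [theta]⟩
      have hboth : ∀ k k', (k = i ∨ k = j) → (k' = i ∨ k' = j) →
          (⟨k, ⟨0, ha k⟩⟩ : ThE a) ∈ A → (⟨k', ⟨0, ha k'⟩⟩ : ThE a) ∈ A := by
        intro k k' hk hk' h
        exact hcl _ h _ (hmemU k' hk' _) ⟨Sum.inl 0, by simp [theta, thVx_zero],
          by simp [theta, thVx_zero]⟩
      obtain ⟨⟨k, l⟩, he⟩ := hAn
      have hk : k = i ∨ k = j := by
        have := hA he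
        rw [Finset.mem_union, mem_pth, mem_pth] at this
        exact this
      have h0 := (hch k hk l l.2).1 he
      apply hAne
      apply Finset.Subset.antisymm hA
      rintro ⟨k', l'⟩ he'
      have hk' : k' = i ∨ k' = j := by
        rw [Finset.mem_union, mem_pth, mem_pth] at he'
        exact he'
      exact (hch k' hk' l' l'.2).2 (hboth k k' hk hk' h0)

end Pool.Agent.NegCirc
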