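import Mathlib
import Pool.Agent.NegCirc.Defs
import Pool.Agent.NegCirc.Basic
import Pool.Agent.NegCirc.ThetaDefs
import Pool.Agent.NegCirc.ThetaCirc

/-!
Negative circle vectors of generalized theta graphs and the cut cone.
-/

namespace Pool.Agent.NegCirc

variable {m : ℕ} {a : Fin m → ℕ}

/-- Is the path `i` negative? -/
def sgn (σ : ThE a → ℤˣ) (i : Fin m) : Bool := decide (∏ e ∈ pth a i, σ e = -1)

/-- The pairs of paths whose union is a circle of length `k`. -/
def prs (a : Fin m → ℕ) (k : ℕ) : Finset (Fin m × Fin m) :=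
  Finset.univ.filter (fun p => p.1 < p.2 ∧ a p.1 + a p.2 = k)

lemma pth_disj {i j : Fin m} (h : i ≠ j) : Disjoint (pth a i) (pth a j) := by
  rw [Finset.disjoint_left]
  intro e he he'
  rw [mem_pth] at he he'
  exact h (he.symm.trans he')

lemma union_inj (ha : ∀ i, 1 ≤ a i) {i j i' j' : Fin m} (h : i < j) (h' : i' < j')
    (e : pth a i ∪ pth a j = pth a i' ∪ pth a j') : i = i' ∧ j = j' := by
  have key : ∀ k, (k = i ∨ k = j) ↔ (k = i' ∨ k = j') := by
    intro k
    have := congrArg (fun S => (⟨k, ⟨0, ha k⟩⟩ : ThE a) ∈ S) e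
    simpa [mem_pth] using this
  have h1 := (key i).1 (Or.inl rfl)
  have h2 := (key j).1 (Or.inr rfl)
  have h3 := (key i').2 (Or.inl rfl)
  have h4 := (key j').2 (Or.inr rfl)
  rcases h1 with h1 | h1 <;> rcases h2 with h2 | h2
  · subst h1; subst h2; exact absurd h (lt_irrefl _)
  · exact ⟨h1, h2⟩
  · subst h1; subst h2; exact absurd (h.trans h') (lt_irrefl _)
  · subst h1; subst h2; exact absurd h (lt_irrefl _)

lemma count_theta (ha : ∀ i, 1 ≤ a i) (σ : ThE a → ℤˣ) (k : ℕ) :
    (negCount (theta a) σ k : ℝ) =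
      ∑ p ∈ prs a k, if sgn σ p.1 ≠ sgn σ p.2 then (1 : ℝ) else 0 := by
  classical
  rw [negCount_eq]
  have h1 : circ (theta a) k = (prs a k).image (fun p => pth a p.1 ∪ pth a p.2) := by
    ext S
    unfold circ prs
    simp only [Finset.mem_filter, Finset.mem_univ, true_and, Finset.mem_image, circle_theta ha]
    constructor
    · rintro ⟨⟨i, j, hij, rfl⟩, hc⟩
      rw [Finset.card_union_of_disjoint (pth_disj (ne_of_lt hij)), card_pth, card_pth] at hc
      exact ⟨(i, j), ⟨hij, hc⟩, rfl⟩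
    · rintro ⟨⟨i, j⟩, ⟨hij, hc⟩, rfl⟩
      refine ⟨⟨i, j, hij, rfl⟩, ?_⟩
      rw [Finset.card_union_of_disjoint (pth_disj (ne_of_lt hij)), card_pth, card_pth]
      exact hc
  rw [h1, Finset.sum_image]
  · apply Finset.sum_congr rfl
    rintro ⟨i, j⟩ hij
    have hij' := (Finset.mem_filter.1 hij).2
    simp only at hij' ⊢
    rw [Finset.prod_union (pth_disj (ne_of_lt hij'.1))]
    unfold sgn
    rcases Int.units_eq_one_or (∏ e ∈ pth a i, σ e) with h0 | h0 <;>
      rcases Int.units_eq_one_or (∏ e ∈ pth a j, σ e) with h2 | h2 <;> rw [h0, h2] <;>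
      norm_num
  · rintro ⟨i, j⟩ h ⟨i', j'⟩ h' e
    have h := (Finset.mem_filter.1 h).2
    have h' := (Finset.mem_filter.1 h').2
    obtain ⟨e1, e2⟩ := union_inj ha h.1 h'.1 e
    exact Prod.ext e1 e2

/-- A signature whose negative paths are given. -/
def sgnSig (a : Fin m → ℕ) (s : Fin m → Bool) : ThE a → ℤˣ :=
  fun e => if (e.2 : ℕ) = 0 ∧ s e.1 = true then -1 else 1

lemma sgn_sgnSig (ha : ∀ i, 1 ≤ a i) (s : Fin m → Bool) : sgn (sgnSig a s) = s := by
  funext i
  unfold sgn
  have h : ∏ e ∈ pth a i, sgnSig a s e = if s i = true then -1 else 1 := by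
    rw [Finset.prod_eq_single (⟨i, ⟨0, ha i⟩⟩ : ThE a)]
    · simp [sgnSig]
    · rintro ⟨k, j⟩ hk hne
      rw [mem_pth] at hk
      simp only at hk
      subst hk
      unfold sgnSig
      rw [if_neg]
      rintro ⟨h0, _⟩
      apply hne
      congr 1
      apply Fin.ext
      exact h0
    · intro h; exact absurd (mem_pth.2 rfl) h
  rw [h]
  by_cases hs : s i = true
  · rw [if_pos hs, hs]; decide
  · rw [if_neg hs]
    have : s i = false := by simpa using hs
    rw [this]; decide

/-- The cone of a generalized theta graph is a projection of the cut cone. -/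
lemma cone_theta (ha : ∀ i, 1 ≤ a i) (x : Fin (Fintype.card (ThV a)) → ℝ) :
    InCone (theta a) x ↔ ∃ y : Fin m → Fin m → ℝ, InCutCone y ∧
      ∀ k, x k = ∑ p ∈ prs a (k + 1), y p.1 p.2 := by
  classical
  constructor
  · rintro ⟨l, hl, rfl⟩
    refine ⟨fun i j => ∑ σ : ThE a → ℤˣ, l σ * (if sgn σ i ≠ sgn σ j then 1 else 0), ?_, ?_⟩
    · refine ⟨fun s => ∑ σ : ThE a → ℤˣ, if sgn σ = s then l σ else 0, ?_, ?_⟩
      · intro s
        apply Finset.sum_nonneg
        intro σ _
        split_ifs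
        · exact hl σ
        · exact le_rfl
      · intro i j
        simp only [Finset.sum_mul]
        rw [Finset.sum_comm]
        apply Finset.sum_congr rfl
        intro σ _
        rw [Finset.sum_eq_single (sgn σ)]
        · rw [if_pos rfl]
        · intro s _ hs
          rw [if_neg (fun h => hs h.symm), zero_mul]
        · intro h; exact absurd (Finset.mem_univ _) h
    · intro k
      rw [Finset.sum_apply, Finset.sum_comm]
      apply Finset.sum_congr rfl
      intro σ _
      simp only [Pi.smul_apply, smul_eq_mul, negVec]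
      rw [count_theta ha, Finset.mul_sum]
  · rintro ⟨y, ⟨μ, hμ, hy⟩, hx⟩
    refine ⟨fun σ => ∑ s : Fin m → Bool, if σ = sgnSig a s then μ s else 0, ?_, ?_⟩
    · intro σ
      apply Finset.sum_nonneg
      intro s _
      split_ifs
      · exact hμ s
      · exact le_rfl
    · funext k
      rw [hx k, Finset.sum_apply]
      simp only [Pi.smul_apply, smul_eq_mul, Finset.sum_mul, hy]
      rw [Finset.sum_comm, Finset.sum_comm (s := (Finset.univ : Finset (ThE a → ℤˣ)))]
      apply Finset.sum_congr rfl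
      intro s _
      rw [Finset.sum_eq_single (sgnSig a s)]
      · rw [if_pos rfl, negVec, count_theta ha, sgn_sgnSig ha, Finset.mul_sum]
      · intro σ _ hσ
        rw [if_neg hσ, zero_mul]
      · intro h; exact absurd (Finset.mem_univ _) h

/-- The pair sums are different. -/
def Sidon (a : Fin m → ℕ) : Prop :=
  ∀ i j i' j', i < j → i' < j' → a i + a j = a i' + a j' → i = i' ∧ j = j'

lemma prs_sidon (hS : Sidon a) {i j : Fin m} (h : i < j) {k : ℕ} (hk : a i + a j = k) :
    prs a k = {(i, j)} := by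
  ext ⟨i', j'⟩
  unfold prs
  simp only [Finset.mem_filter, Finset.mem_univ, true_and, Finset.mem_singleton,
    Prod.mk.injEq]
  constructor
  · rintro ⟨h1, h2⟩
    have := hS i' j' i j h1 h (h2.trans hk.symm)
    exact this
  · rintro ⟨rfl, rfl⟩
    exact ⟨h, hk⟩

lemma prs_empty {k : ℕ} (h : ¬ ∃ i j, i < j ∧ a i + a j = k) : prs a k = ∅ := by
  unfold prs
  rw [Finset.filter_eq_empty_iff]
  rintro ⟨i, j⟩ _ h1
  exact h ⟨i, j, h1⟩

lemma pair_lt (ha : ∀ i, 1 ≤ a i) {i j : Fin m} (h : i < j) :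
    a i + a j ≤ Fintype.card (ThV a) := by
  have h1 := circle_card_le ((circle_theta ha _).2 ⟨i, j, h, rfl⟩)
  rwa [Finset.card_union_of_disjoint (pth_disj (ne_of_lt h)), card_pth, card_pth] at h1

lemma negVec_pair (ha : ∀ i, 1 ≤ a i) (hS : Sidon a) (σ : ThE a → ℤˣ) {i j : Fin m}
    (h : i < j) (k : Fin (Fintype.card (ThV a))) (hk : a i + a j = k + 1) :
    negVec (theta a) σ k = if sgn σ i ≠ sgn σ j then 1 else 0 := by
  unfold negVec
  rw [count_theta ha, prs_sidon hS h hk, Finset.sum_singleton]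

lemma negVec_nopair (ha : ∀ i, 1 ≤ a i) (σ : ThE a → ℤˣ)
    (k : Fin (Fintype.card (ThV a))) (hk : ¬ ∃ i j, i < j ∧ a i + a j = k + 1) :
    negVec (theta a) σ k = 0 := by
  unfold negVec
  rw [count_theta ha, prs_empty hk, Finset.sum_empty]

lemma cone_sidon (ha : ∀ i, 1 ≤ a i) (hS : Sidon a)
    (x : Fin (Fintype.card (ThV a)) → ℝ) :
    InCone (theta a) x ↔
      (∀ k : Fin (Fintype.card (ThV a)), (¬ ∃ i j, i < j ∧ a i + a j = k + 1) → x k = 0) ∧
      ∃ y : Fin m → Fin m → ℝ, InCutCone y ∧ ∀ (i j : Fin m)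
        (k : Fin (Fintype.card (ThV a))), i < j → a i + a j = k + 1 → x k = y i j := by
  rw [cone_theta ha]
  constructor
  · rintro ⟨y, hy, hx⟩
    refine ⟨?_, y, hy, ?_⟩
    · intro k hk
      rw [hx, prs_empty hk, Finset.sum_empty]
    · intro i j k hij hk
      rw [hx, prs_sidon hS hij hk, Finset.sum_singleton]
  · rintro ⟨h0, y, hy, hx⟩
    refine ⟨y, hy, ?_⟩
    intro k
    by_cases hk : ∃ i j, i < j ∧ a i + a j = k + 1
    · obtain ⟨i, j, hij, hk⟩ := hk
      rw [prs_sidon hS hij hk, Finset.sum_singleton]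
      exact hx i j k hij hk
    · rw [h0 k hk, prs_empty hk, Finset.sum_empty]

/-- `negVec` depends only on the signs of the paths, up to a global change. -/
lemma negVec_eq_iff (ha : ∀ i, 1 ≤ a i) (hS : Sidon a) (σ τ : ThE a → ℤˣ) :
    negVec (theta a) σ = negVec (theta a) τ ↔
      ∀ i j, (sgn σ i ≠ sgn σ j ↔ sgn τ i ≠ sgn τ j) := by
  constructor
  · intro h i j
    have main : ∀ i j : Fin m, i < j → (sgn σ i ≠ sgn σ j ↔ sgn τ i ≠ sgn τ j) := by
      intro i j hij
      have hlt := pair_lt ha hij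
      have h1 := ha i
      have hk : a i + a j = ((⟨a i + a j - 1, by omega⟩ : Fin (Fintype.card (ThV a))) : ℕ) + 1 := by
        simp only; omega
      have h2 := congrFun h ⟨a i + a j - 1, by omega⟩
      rw [negVec_pair ha hS σ hij _ hk, negVec_pair ha hS τ hij _ hk] at h2
      by_cases c1 : sgn σ i ≠ sgn σ j <;> by_cases c2 : sgn τ i ≠ sgn τ j
      · exact ⟨fun _ => c2, fun _ => c1⟩
      · rw [if_pos c1, if_neg c2] at h2; norm_num at h2
      · rw [if_neg c1, if_pos c2] at h2; norm_num at h2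
      · exact ⟨fun h => absurd h c1, fun h => absurd h c2⟩
    rcases lt_trichotomy i j with hij | hij | hij
    · exact main i j hij
    · subst hij; simp
    · have := main j i hij
      constructor
      · intro h; exact (this.1 h.symm).symm
      · intro h; exact (this.2 h.symm).symm
  · intro h
    funext k
    by_cases hk : ∃ i j, i < j ∧ a i + a j = k + 1
    · obtain ⟨i, j, hij, hk⟩ := hk
      rw [negVec_pair ha hS σ hij _ hk, negVec_pair ha hS τ hij _ hk]
      simp only [h i j]
    · rw [negVec_nopair ha σ k hk, negVec_nopair ha τ k hk]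

end Pool.Agent.NegCirc
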